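import Mathlib

/-! Anti-concentration and symmetry for functionals of i.i.d. Gaussian families. -/

set_option autoImplicit false

open MeasureTheory ProbabilityTheory Filter Topology

namespace Pool.Agent.H964.NU

variable {S Ω : Type*} [MeasurableSpace Ω] {P : Measure Ω} [IsProbabilityMeasure P]

theorem gaussProc {X : S → Ω → ℝ} (hm : ∀ s, Measurable (X s)) (hi : iIndepFun X P)
    (hl : ∀ s, P.map (X s) = gaussianReal 0 1) : IsGaussianProcess X P := by
  constructor
  intro I
  have h1 : iIndepFun (fun i : I => X i) P := hi.precomp Subtype.val_injective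
  have h2 : ∀ i : I, HasGaussianLaw (X i) P := by
    intro i
    constructor
    rw [hl]
    infer_instance
  exact iIndepFun.hasGaussianLaw h2 h1

theorem small_ball {G : Ω → ℝ} (hG : Measurable G) (hl : P.map G = gaussianReal 0 1)
    {R : Ω → ℝ} (hR : Measurable R) (hRG : IndepFun R G P) {b t : ℝ} (hb : 0 < b) (ht : 0 ≤ t) :
    P {o | |R o + b * G o| ≤ t} ≤ ENNReal.ofReal (2 * t / b) := by
  have h1 : P.map (fun o => (R o, G o)) = (P.map R).prod (gaussianReal 0 1) := by
    rw [← hl]
    exact (indepFun_iff_map_prod_eq_prod_map_map hR.aemeasurable hG.aemeasurable).1 hRG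
  have hms : MeasurableSet {p : ℝ × ℝ | |p.1 + b * p.2| ≤ t} := by
    apply measurableSet_le _ measurable_const
    fun_prop
  have h2 : P {o | |R o + b * G o| ≤ t} = (P.map (fun o => (R o, G o))) {p : ℝ × ℝ | |p.1 + b * p.2| ≤ t} := by
    rw [Measure.map_apply (by fun_prop) hms]
    rfl
  rw [h2, h1, Measure.prod_apply hms]
  have : IsProbabilityMeasure (P.map R) := Measure.isProbabilityMeasure_map hR.aemeasurable
  calc ∫⁻ r, gaussianReal 0 1 (Prod.mk r ⁻¹' {p : ℝ × ℝ | |p.1 + b * p.2| ≤ t}) ∂(P.map R)
      ≤ ∫⁻ r, ENNReal.ofReal (2 * t / b) ∂(P.map R) := by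
        apply lintegral_mono
        intro r
        have hsub : Prod.mk r ⁻¹' {p : ℝ × ℝ | |p.1 + b * p.2| ≤ t} ⊆ Set.Icc ((-t - r) / b) ((t - r) / b) := by
          intro x hx
          simp only [Set.mem_preimage, Set.mem_setOf_eq, abs_le] at hx
          constructor
          · rw [div_le_iff₀ hb]; linarith [hx.1]
          · rw [le_div_iff₀ hb]; linarith [hx.2]
        refine (measure_mono hsub).trans ?_
        rw [gaussianReal_apply 0 (by norm_num)]
        calc ∫⁻ x in Set.Icc ((-t - r) / b) ((t - r) / b), gaussianPDF 0 1 x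
            ≤ ∫⁻ x in Set.Icc ((-t - r) / b) ((t - r) / b), 1 := by
              apply lintegral_mono
              intro x
              rw [gaussianPDF, ← ENNReal.ofReal_one]
              apply ENNReal.ofReal_le_ofReal
              rw [gaussianPDFReal]
              have h3 : Real.exp (-(x - 0) ^ 2 / (2 * ((1 : NNReal) : ℝ))) ≤ 1 := by
                rw [Real.exp_le_one_iff]
                have : 0 ≤ (x - 0) ^ 2 := by positivity
                rw [neg_div]
                have : 0 ≤ (x - 0) ^ 2 / (2 * ((1 : NNReal) : ℝ)) := by positivity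
                linarith
              have h4 : (√(2 * Real.pi * ((1 : NNReal) : ℝ)))⁻¹ ≤ 1 := by
                apply inv_le_one_of_one_le₀
                rw [Real.one_le_sqrt]
                have := Real.pi_gt_three
                push_cast
                linarith
              have h5 : 0 ≤ (√(2 * Real.pi * ((1 : NNReal) : ℝ)))⁻¹ := by positivity
              have h6 := Real.exp_nonneg (-(x - 0) ^ 2 / (2 * ((1 : NNReal) : ℝ)))
              exact mul_le_one₀ h4 h6 h3
          _ = ENNReal.ofReal (2 * t / b) := by
              rw [setLIntegral_const, one_mul, Real.volume_Icc]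
              congr 1
              field_simp
              ring
    _ = ENNReal.ofReal (2 * t / b) := by simp

/-- Anti-concentration: the functional `f` grows linearly in the direction of the indicator of `J`. -/
theorem anti [DecidableEq S] {X : S → Ω → ℝ} (hm : ∀ s, Measurable (X s)) (hi : iIndepFun X P)
    (hl : ∀ s, P.map (X s) = gaussianReal 0 1) (J : Finset S) (hJ : J.Nonempty)
    (f : (S → ℝ) → ℝ) (hf : Measurable f) {a t : ℝ} (ha : 0 < a) (ht : 0 ≤ t)
    (hfa : ∀ x c, f (fun s => x s + (if s ∈ J then c else 0)) = f x + a * c) :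
    P {o | |f (fun s => X s o)| ≤ t} ≤ ENNReal.ofReal (2 * t * √(J.card) / a) := by
  classical
  have hN : (0 : ℝ) < (J.card : ℝ) := by exact_mod_cast hJ.card_pos
  obtain ⟨N, hNdef⟩ : ∃ N : ℝ, N = (J.card : ℝ) := ⟨_, rfl⟩
  rw [← hNdef] at hN ⊢
  obtain ⟨q, hq⟩ : ∃ q : ℝ, q = (√N)⁻¹ := ⟨_, rfl⟩
  have hq0 : 0 < q := by rw [hq]; positivity
  have hqq : q * (N * q) = 1 := by
    rw [hq]
    have := Real.mul_self_sqrt hN.le
    have h2 : √N ≠ 0 := by positivity
    field_simp
    nlinarith
  have hgp := gaussProc hm hi hl
  let G : Ω → ℝ := fun o => q * ∑ s ∈ J, X s o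
  let Y : S → Ω → ℝ := fun s o => X s o - (if s ∈ J then q else 0) * G o
  have hGm : Measurable G := by fun_prop
  have hYm : ∀ s, Measurable (Y s) := by
    intro s
    fun_prop
  have hmem : ∀ s, MemLp (X s) 2 P := fun s => (hgp.hasGaussianLaw_eval s).memLp_two
  have hGmem : MemLp G 2 P := by
    apply MemLp.const_mul
    exact memLp_finset_sum J (fun s _ => hmem s)
  have hcov : ∀ s u, cov[X s, X u; P] = if s = u then 1 else 0 := by
    intro s u
    by_cases h : s = u
    · subst h
      rw [if_pos rfl, covariance_self (hm s).aemeasurable]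
      have : Var[X s; P] = Var[id; P.map (X s)] := by
        rw [variance_map aemeasurable_id (hm s).aemeasurable]; rfl
      rw [this, hl]; simp
    · rw [if_neg h]
      exact (hi.indepFun h).covariance_eq_zero (hmem s) (hmem u)
  have hcovG : ∀ u, cov[G, X u; P] = if u ∈ J then q else 0 := by
    intro u
    simp only [G]
    rw [covariance_const_mul_left, covariance_fun_sum_left' (fun s _ => hmem s) (hmem u)]
    simp_rw [hcov]
    simp
  have hvarG : cov[G, G; P] = 1 := by
    have h1 : cov[G, G; P] = q * ∑ s ∈ J, cov[X s, G; P] := by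
      conv_lhs => simp only [G]
      rw [covariance_const_mul_left, covariance_fun_sum_left' (fun s _ => hmem s) hGmem]
    rw [h1]
    have h2 : ∀ s ∈ J, cov[X s, G; P] = q := by
      intro s hs
      rw [covariance_comm, hcovG, if_pos hs]
    rw [Finset.sum_congr rfl h2]
    simp only [Finset.sum_const, nsmul_eq_mul]
    rw [← hNdef, hqq]
  have hGg : HasGaussianLaw G P := by
    have := (hgp.hasGaussianLaw_fun_sum (I := J)).fun_smul q
    exact this
  have hmean : ∫ o, G o ∂P = 0 := by
    simp only [G]
    rw [integral_const_mul, integral_finset_sum]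
    · have : ∀ s ∈ J, ∫ o, X s o ∂P = 0 := by
        intro s _
        have h1 : ∫ o, X s o ∂P = ∫ x, x ∂(P.map (X s)) := by
          rw [integral_map (hm s).aemeasurable (by fun_prop)]
        rw [h1, hl]; simp
      rw [Finset.sum_congr rfl this]; simp
    · intro s _
      exact (hgp.hasGaussianLaw_eval s).integrable
  have hGl : P.map G = gaussianReal 0 1 := by
    rw [hGg.map_eq_gaussianReal, hmean]
    congr 1
    rw [← covariance_self hGm.aemeasurable, hvarG]
    simp
  have hproc : IsGaussianProcess (Sum.elim Y (fun _ : Unit => G)) P := by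
    apply hgp.of_isGaussianProcess
    rintro (s | u)
    · refine ⟨insert s J, ContinuousLinearMap.proj ⟨s, Finset.mem_insert_self _ _⟩ -
        ((if s ∈ J then q else 0) * q) • ∑ u : J, ContinuousLinearMap.proj
          (R := ℝ) (φ := fun _ : (insert s J : Finset S) => ℝ) ⟨u.1, Finset.mem_insert_of_mem u.2⟩, ?_⟩
      intro o
      simp only [Sum.elim_inl, Y, G, ContinuousLinearMap.sub_apply, ContinuousLinearMap.proj_apply,
        Finset.restrict, ContinuousLinearMap.smul_apply, ContinuousLinearMap.sum_apply, smul_eq_mul]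
      rw [Finset.sum_coe_sort J (fun u => X u o)]
      ring
    · refine ⟨J, q • ∑ u : J, ContinuousLinearMap.proj (R := ℝ) (φ := fun _ : J => ℝ) u, ?_⟩
      intro o
      simp only [Sum.elim_inr, G, ContinuousLinearMap.proj_apply,
        Finset.restrict, ContinuousLinearMap.smul_apply, ContinuousLinearMap.sum_apply, smul_eq_mul]
      rw [Finset.sum_coe_sort J (fun u => X u o)]
  have hind : IndepFun (fun o => fun s => Y s o) G P := by
    have h1 : IndepFun (fun o s => Y s o) (fun o (_ : Unit) => G o) P := by
      apply hproc.indepFun_of_covariance_eq_zero (fun s => (hYm s).aemeasurable) (fun _ => hGm.aemeasurable)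
      intro s _
      have h2 : cov[Y s, G; P] = cov[X s, G; P] - cov[fun o => (if s ∈ J then q else 0) * G o, G; P] := by
        simp only [Y]
        exact covariance_fun_sub_left (hmem s) (hGmem.const_mul _) hGmem
      rw [h2, covariance_const_mul_left, hvarG, covariance_comm, hcovG]
      ring
    exact h1.comp measurable_id (measurable_pi_apply ())
  have hdec : ∀ o, f (fun s => X s o) = f (fun s => Y s o) + (a * q) * G o := by
    intro o
    have := hfa (fun s => Y s o) (q * G o)
    rw [mul_assoc, ← this]
    congr 1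
    funext s
    by_cases h : s ∈ J
    · simp only [Y, h, if_true]; ring
    · simp [Y, h]
  have hfin : P {o | |f (fun s => Y s o) + (a * q) * G o| ≤ t} ≤ ENNReal.ofReal (2 * t / (a * q)) := by
    apply small_ball hGm hGl (R := fun o => f (fun s => Y s o))
    · exact hf.comp (measurable_pi_lambda _ hYm)
    · exact hind.comp hf measurable_id
    · positivity
    · exact ht
  simp_rw [hdec]
  refine hfin.trans (le_of_eq ?_)
  congr 1
  rw [hq]
  field_simp

end Pool.Agent.H964.NU
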