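import Pool.Agent.H964.NU.Main

/-! Asymptotics. -/

set_option autoImplicit false

open MeasureTheory ProbabilityTheory Filter Topology

namespace Pool.Agent.H964.NU

variable {d : ℕ} {Ω : Type*} [MeasurableSpace Ω] {P : Measure Ω} [IsProbabilityMeasure P]

theorem asymp (hd : 1 ≤ d) {β : ℝ} (hβ : 0 < β) {ω : ℕ × (Fin d → ℤ) → Ω → ℝ} (hm : ∀ s, Measurable (ω s))
    (hi : iIndepFun ω P) (hl : ∀ s, P.map (ω s) = gaussianReal 0 1) (K : ℕ) {a : ℝ} (ha : 0 < a)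
    (ha1 : a * (d + 2) < 1) :
    ∃ C : ℝ, ∀ᶠ n : ℕ in atTop, ∫ o, probStay β (fun i x => ω (i, x) o) n ((n : ℝ) ^ a) ∂P ≤
      4 * 3 ^ d * (n : ℝ)⁻¹ + (1 / (K + 1) + C * (Real.log n * (n : ℝ) ^ (-((1 - a * (d + 2)) / 2)))) + (n : ℝ)⁻¹ := by
  have hd' : (1 : ℝ) ≤ d := by exact_mod_cast hd
  have ha2 : a < 1 := by nlinarith
  have hlog : 0 ≤ Real.log (2 * d) := Real.log_nonneg (by linarith)
  obtain ⟨C1, hC1⟩ : ∃ C1 : ℝ, C1 = 4 * K * Real.log (2 * d) + 8 * β * K * (d + 2) + 1 := ⟨_, rfl⟩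
  have hC1' : 0 ≤ C1 := by rw [hC1]; positivity
  refine ⟨(K + 1) ^ 2 * (2 * C1 * √(3 ^ d) * √2 / β), ?_⟩
  have hlarge : ∀ᶠ n : ℕ in atTop, 8 * (K : ℝ) * (n : ℝ) ^ a ≤ n := by
    have h1 : Tendsto (fun n : ℕ => (n : ℝ) ^ (1 - a)) atTop atTop :=
      (tendsto_rpow_atTop (by linarith)).comp tendsto_natCast_atTop_atTop
    filter_upwards [h1.eventually_ge_atTop (8 * (K : ℝ)), eventually_ge_atTop 1] with n hn hn1
    have hx : (0 : ℝ) < n := by exact_mod_cast hn1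
    have : (n : ℝ) = (n : ℝ) ^ (1 - a) * (n : ℝ) ^ a := by
      rw [← Real.rpow_add hx]; norm_num
    calc 8 * (K : ℝ) * (n : ℝ) ^ a ≤ (n : ℝ) ^ (1 - a) * (n : ℝ) ^ a := by gcongr
      _ = n := this.symm
  have hlog1 : ∀ᶠ n : ℕ in atTop, 1 ≤ Real.log n :=
    (Real.tendsto_log_atTop.comp tendsto_natCast_atTop_atTop).eventually_ge_atTop 1
  filter_upwards [hlarge, hlog1, eventually_ge_atTop 1] with n h1 h2 h3
  have hx1 : (1 : ℝ) ≤ n := by exact_mod_cast h3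
  have hx : (0 : ℝ) < n := by linarith
  obtain ⟨r, hr⟩ : ∃ r : ℝ, r = (n : ℝ) ^ a := ⟨_, rfl⟩
  rw [← hr] at h1 ⊢
  have hr1 : 1 ≤ r := by rw [hr]; exact Real.one_le_rpow hx1 ha.le
  have hrn : r ≤ n := by
    rw [hr]
    calc (n : ℝ) ^ a ≤ (n : ℝ) ^ (1 : ℝ) := Real.rpow_le_rpow_of_exponent_le hx1 ha2.le
      _ = n := Real.rpow_one _
  obtain ⟨B, hB⟩ : ∃ B : ℕ, B = ⌊r⌋₊ := ⟨_, rfl⟩
  have hBr : (B : ℝ) ≤ r := by rw [hB]; exact Nat.floor_le (by linarith)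
  obtain ⟨m, hm'⟩ : ∃ m : ℕ, m = 2 * (⌊r⌋₊ + 1) * K := ⟨_, rfl⟩
  have hK0 : (0 : ℝ) ≤ K := by positivity
  have hmr : (m : ℝ) ≤ 4 * K * r := by
    rw [hm', ← hB]
    push_cast
    nlinarith
  have hmn : (m : ℝ) ≤ n / 2 := by linarith
  obtain ⟨k, hk⟩ : ∃ k : ℕ, n = m + k := by
    have : m ≤ n := by
      have : (m : ℝ) ≤ n := by linarith
      exact_mod_cast this
    exact ⟨n - m, by omega⟩
  have hkx : (n : ℝ) / 2 ≤ k := by
    have : (n : ℝ) = m + k := by rw [hk]; push_cast; ring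
    linarith
  have hk0 : (0 : ℝ) < k := by linarith
  have hk1 : 1 ≤ k := by exact_mod_cast hk0
  have hmain := main_bound hd hβ hm hi hl K k m n (R := r) (Λ := (d + 2) * Real.log n) (L := Real.log n) hr1 hm' hk hk1
    hrn (by positivity) (by linarith)
  refine hmain.trans ?_
  have hT3 : Real.exp (-Real.log n) = (n : ℝ)⁻¹ := by rw [Real.exp_neg, Real.exp_log hx]
  have hT1 : ((n * (2 * n + 1) ^ d : ℕ) : ℝ) * (4 * Real.exp (-((d + 2) * Real.log n))) ≤ 4 * 3 ^ d * (n : ℝ)⁻¹ := by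
    have e1 : Real.exp (-((d + 2) * Real.log n)) = ((n : ℝ) ^ (d + 2))⁻¹ := by
      rw [Real.exp_neg, show ((d : ℝ) + 2) * Real.log n = ((d + 2 : ℕ) : ℝ) * Real.log n by push_cast; ring,
        Real.exp_nat_mul, Real.exp_log hx]
    rw [e1]
    have e2 : ((n * (2 * n + 1) ^ d : ℕ) : ℝ) ≤ n * (3 * n) ^ d := by
      push_cast
      gcongr
      linarith
    calc ((n * (2 * n + 1) ^ d : ℕ) : ℝ) * (4 * ((n : ℝ) ^ (d + 2))⁻¹) ≤ (n * (3 * n) ^ d) * (4 * ((n : ℝ) ^ (d + 2))⁻¹) := by gcongr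
      _ = 4 * 3 ^ d * (n : ℝ)⁻¹ := by
        rw [mul_pow, pow_add]
        field_simp
  have hT2 : 2 * (m * Real.log (2 * d) + 2 * β * (m * ((d + 2) * Real.log n)) + Real.log n) *
      √((k * (2 * ⌊r⌋₊ + 1) ^ d : ℕ)) / (β * k) ≤
      (2 * C1 * √(3 ^ d) * √2 / β) * (Real.log n * (n : ℝ) ^ (-((1 - a * (d + 2)) / 2))) := by
    have s1 : m * Real.log (2 * d) + 2 * β * (m * ((d + 2) * Real.log n)) + Real.log n ≤ C1 * r * Real.log n := by
      have t1 : (m : ℝ) * Real.log (2 * d) ≤ 4 * K * Real.log (2 * d) * r * Real.log n := by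
        calc (m : ℝ) * Real.log (2 * d) ≤ (4 * K * r) * Real.log (2 * d) := by gcongr
          _ = (4 * K * Real.log (2 * d) * r) * 1 := by ring
          _ ≤ (4 * K * Real.log (2 * d) * r) * Real.log n := by
            apply mul_le_mul_of_nonneg_left h2; positivity
      have t2 : 2 * β * (m * ((d + 2) * Real.log n)) ≤ 8 * β * K * (d + 2) * r * Real.log n := by
        calc 2 * β * (m * ((d + 2) * Real.log n)) ≤ 2 * β * ((4 * K * r) * ((d + 2) * Real.log n)) := by gcongr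
          _ = _ := by ring
      have t3 : Real.log n ≤ r * Real.log n := by
        nlinarith
      rw [hC1]
      nlinarith
    have s2 : √((k * (2 * ⌊r⌋₊ + 1) ^ d : ℕ)) ≤ √k * (√(3 ^ d) * (n : ℝ) ^ (a * d / 2)) := by
      have e3 : √((r : ℝ) ^ d) = (n : ℝ) ^ (a * d / 2) := by
        rw [hr, ← Real.rpow_natCast, ← Real.rpow_mul hx.le, Real.sqrt_eq_rpow, ← Real.rpow_mul hx.le]
        congr 1; ring
      rw [← e3, ← Real.sqrt_mul (by positivity), ← Real.sqrt_mul (by positivity)]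
      apply Real.sqrt_le_sqrt
      push_cast
      rw [← mul_pow, ← hB]
      gcongr
      linarith
    have s3 : √k * √k = k := Real.mul_self_sqrt hk0.le
    have hsk : 0 < √(k : ℝ) := Real.sqrt_pos.2 hk0
    have s4 : √(n : ℝ) ≤ √2 * √k := by
      rw [← Real.sqrt_mul (by norm_num)]
      apply Real.sqrt_le_sqrt; linarith
    have hsn : 0 < √(n : ℝ) := Real.sqrt_pos.2 hx
    have s5 : r * (n : ℝ) ^ (a * d / 2) = √n * (n : ℝ) ^ (-((1 - a * (d + 2)) / 2)) := by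
      rw [hr, Real.sqrt_eq_rpow, ← Real.rpow_add hx, ← Real.rpow_add hx]
      congr 1; ring
    obtain ⟨g, hg⟩ : ∃ g : ℝ, g = (n : ℝ) ^ (-((1 - a * (d + 2)) / 2)) := ⟨_, rfl⟩
    have hg0 : 0 ≤ g := by rw [hg]; positivity
    rw [← hg] at s5 ⊢
    have hA0 : 0 ≤ m * Real.log (2 * d) + 2 * β * (m * ((d + 2) * Real.log n)) + Real.log n := by positivity
    have hln : 0 ≤ Real.log n := by linarith
    calc 2 * (m * Real.log (2 * d) + 2 * β * (m * ((d + 2) * Real.log n)) + Real.log n) *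
        √((k * (2 * ⌊r⌋₊ + 1) ^ d : ℕ)) / (β * k)
        ≤ 2 * (C1 * r * Real.log n) * (√k * (√(3 ^ d) * (n : ℝ) ^ (a * d / 2))) / (β * k) := by
          gcongr
      _ = 2 * C1 * √(3 ^ d) * Real.log n * (r * (n : ℝ) ^ (a * d / 2)) / (β * √k) := by
          have e5 : β * (k : ℝ) = (β * √k) * √k := by rw [mul_assoc, s3]
          rw [e5]
          field_simp
      _ = 2 * C1 * √(3 ^ d) * Real.log n * (√n * g) / (β * √k) := by rw [s5]
      _ ≤ 2 * C1 * √(3 ^ d) * Real.log n * ((√2 * √k) * g) / (β * √k) := by gcongr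
      _ = (2 * C1 * √(3 ^ d) * √2 / β) * (Real.log n * g) := by
          field_simp
  rw [hT3]
  refine add_le_add (add_le_add hT1 (add_le_add le_rfl ?_)) le_rfl
  rw [mul_assoc ((K + 1 : ℝ) ^ 2)]
  exact mul_le_mul_of_nonneg_left hT2 (by positivity)

theorem tends (hd : 1 ≤ d) {β : ℝ} (hβ : 0 < β) {ω : ℕ × (Fin d → ℤ) → Ω → ℝ} (hm : ∀ s, Measurable (ω s))
    (hi : iIndepFun ω P) (hl : ∀ s, P.map (ω s) = gaussianReal 0 1) {a : ℝ} (ha : 0 < a)
    (ha1 : a < 1 / (d + 2)) :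
    Tendsto (fun n : ℕ => ∫ o, probStay β (fun i x => ω (i, x) o) n ((n : ℝ) ^ a) ∂P) atTop (𝓝 0) := by
  have ha1' : a * (d + 2) < 1 := by
    rwa [lt_div_iff₀ (by positivity)] at ha1
  rw [Metric.tendsto_atTop']
  have key : ∀ ε > 0, ∀ᶠ n : ℕ in atTop, ∫ o, probStay β (fun i x => ω (i, x) o) n ((n : ℝ) ^ a) ∂P < ε := by
    intro ε hε
    obtain ⟨K, hK⟩ := exists_nat_one_div_lt hε
    obtain ⟨C, hC⟩ := asymp hd hβ hm hi hl K ha ha1'
    have hinv : Tendsto (fun n : ℕ => ((n : ℝ))⁻¹) atTop (𝓝 0) :=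
      tendsto_inv_atTop_zero.comp tendsto_natCast_atTop_atTop
    have hδ : 0 < (1 - a * (d + 2)) / 2 := by linarith
    have hlg : Tendsto (fun n : ℕ => Real.log n * (n : ℝ) ^ (-((1 - a * (d + 2)) / 2))) atTop (𝓝 0) := by
      have h1 := (isLittleO_log_rpow_atTop hδ).tendsto_div_nhds_zero
      have h2 := h1.comp tendsto_natCast_atTop_atTop
      refine h2.congr' ?_
      filter_upwards [eventually_ge_atTop 1] with n hn
      have hx : (0 : ℝ) ≤ n := by positivity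
      simp only [Function.comp]
      rw [Real.rpow_neg hx, div_eq_mul_inv]
    have hlim : Tendsto (fun n : ℕ => 4 * 3 ^ d * (n : ℝ)⁻¹ + (1 / ((K : ℝ) + 1) +
        C * (Real.log n * (n : ℝ) ^ (-((1 - a * (d + 2)) / 2)))) + (n : ℝ)⁻¹) atTop (𝓝 (1 / ((K : ℝ) + 1))) := by
      have := ((hinv.const_mul (4 * 3 ^ d)).add ((tendsto_const_nhds (x := 1 / ((K : ℝ) + 1))).add (hlg.const_mul C))).add hinv
      simpa using this
    filter_upwards [hC, hlim.eventually_lt_const hK] with n h1 h2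
    exact h1.trans_lt h2
  intro ε hε
  obtain ⟨N, hN⟩ := eventually_atTop.1 (key ε hε)
  refine ⟨N, fun n hn => ?_⟩
  have h0 : 0 ≤ ∫ o, probStay β (fun i x => ω (i, x) o) n ((n : ℝ) ^ a) ∂P :=
    integral_nonneg (fun o => div_nonneg (stay_nonneg _ _ _ _) (total_pos hd _ _ _).le)
  rw [Real.dist_eq, sub_zero, abs_of_nonneg h0]
  exact hN n hn.le

end Pool.Agent.H964.NU
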