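import Pool.Agent.H964.NU.Main2

/-! Asymptotics. -/

set_option autoImplicit false

open MeasureTheory ProbabilityTheory Filter Topology

namespace Pool.Agent.H964.NU

variable {d : ℕ} {Ω : Type*} [MeasurableSpace Ω] {P : Measure Ω} [IsProbabilityMeasure P]

set_option maxHeartbeats 1600000 in
theorem asymp2 {μ : Measure ℝ} [IsProbabilityMeasure μ] {g : ℝ → ℝ} {C : ℝ} (hg : SqrtDensity μ g C)
    (he1 : Integrable (fun x => Real.exp x) μ) (he2 : Integrable (fun x => Real.exp (-x)) μ)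
    (hd : 1 ≤ d) {β : ℝ} (hβ : 0 < β) {ω : ℕ × (Fin d → ℤ) → Ω → ℝ} (hm : ∀ s, Measurable (ω s))
    (hi : iIndepFun ω P) (hl : ∀ s, P.map (ω s) = μ) (K N : ℕ) (hN : 1 ≤ N) {l : ℝ} (hl0 : 0 < l) {a : ℝ} (ha : 0 < a)
    (ha1 : a * (d + 2) < 1) :
    ∃ D : ℝ, ∀ᶠ n : ℕ in atTop, ∫ o, probStay β (fun i x => ω (i, x) o) n ((n : ℝ) ^ a) ∂P ≤
      ((∫ x, Real.exp x ∂μ) + ∫ x, Real.exp (-x) ∂μ) * 3 ^ d * (n : ℝ)⁻¹ + (1 / (K + 1) + (K + 1) ^ 2 *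
        (1 / N + (C * (9 * N ^ 2 * (D * (Real.log n * (n : ℝ) ^ (-((1 - a * (d + 2)) / 2)))) ^ 2) / (2 * l) + 2 * l))) +
        (n : ℝ)⁻¹ := by
  have hd' : (1 : ℝ) ≤ d := by exact_mod_cast hd
  have ha2 : a < 1 := by nlinarith
  have hlog : 0 ≤ Real.log (2 * d) := Real.log_nonneg (by linarith)
  obtain ⟨C1, hC1⟩ : ∃ C1 : ℝ, C1 = 4 * K * Real.log (2 * d) + 8 * β * K * (d + 2) + 1 := ⟨_, rfl⟩
  have hC1' : 0 ≤ C1 := by rw [hC1]; positivity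
  refine ⟨C1 * √(3 ^ d) * √2 / β, ?_⟩
  have hlarge : ∀ᶠ n : ℕ in atTop, 8 * (K : ℝ) * (n : ℝ) ^ a ≤ n := by
    have h1 : Tendsto (fun n : ℕ => (n : ℝ) ^ (1 - a)) atTop atTop :=
      (tendsto_rpow_atTop (by linarith)).comp tendsto_natCast_atTop_atTop
    filter_upwards [h1.eventually_ge_atTop (8 * (K : ℝ)), eventually_ge_atTop 1] with n hn hn1
    have hx : (0 : ℝ) < n := by exact_mod_cast hn1
    have : (n : ℝ) = (n : ℝ) ^ (1 - a) * (n : ℝ) ^ a := by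
      rw [← Real.rpow_add hx]; norm_num
    calc 8 * (K : ℝ) * (n : ℝ) ^ a ≤ (n : ℝ) ^ (1 - a) * (n : ℝ) ^ a := by gcongr
      _ = n := this.symm
  have hlog1 : ∀ᶠ n : ℕ in atTop, 1 ≤ Real.log n :=
    (Real.tendsto_log_atTop.comp tendsto_natCast_atTop_atTop).eventually_ge_atTop 1
  filter_upwards [hlarge, hlog1, eventually_ge_atTop 1] with n h1 h2 h3
  have hx1 : (1 : ℝ) ≤ n := by exact_mod_cast h3
  have hx : (0 : ℝ) < n := by linarith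
  obtain ⟨r, hr⟩ : ∃ r : ℝ, r = (n : ℝ) ^ a := ⟨_, rfl⟩
  rw [← hr] at h1 ⊢
  have hr1 : 1 ≤ r := by rw [hr]; exact Real.one_le_rpow hx1 ha.le
  have hrn : r ≤ n := by
    rw [hr]
    calc (n : ℝ) ^ a ≤ (n : ℝ) ^ (1 : ℝ) := Real.rpow_le_rpow_of_exponent_le hx1 ha2.le
      _ = n := Real.rpow_one _
  obtain ⟨B, hB⟩ : ∃ B : ℕ, B = ⌊r⌋₊ := ⟨_, rfl⟩
  have hBr : (B : ℝ) ≤ r := by rw [hB]; exact Nat.floor_le (by linarith)
  obtain ⟨m, hm'⟩ : ∃ m : ℕ, m = 2 * (⌊r⌋₊ + 1) * K := ⟨_, rfl⟩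
  have hK0 : (0 : ℝ) ≤ K := by positivity
  have hmr : (m : ℝ) ≤ 4 * K * r := by
    rw [hm', ← hB]
    push_cast
    nlinarith
  have hmn : (m : ℝ) ≤ n / 2 := by linarith
  obtain ⟨k, hk⟩ : ∃ k : ℕ, n = m + k := by
    have : m ≤ n := by
      have : (m : ℝ) ≤ n := by linarith
      exact_mod_cast this
    exact ⟨n - m, by omega⟩
  have hkx : (n : ℝ) / 2 ≤ k := by
    have : (n : ℝ) = m + k := by rw [hk]; push_cast; ring
    linarith
  have hk0 : (0 : ℝ) < k := by linarith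
  have hk1 : 1 ≤ k := by exact_mod_cast hk0
  have hmain := main_bound2 hg he1 he2 hd hβ hm hi hl K k m n N hN (R := r) (Λ := (d + 2) * Real.log n) (L := Real.log n)
    (l := l) hr1 hm' hk hk1 hrn (by positivity) (by linarith) hl0
  obtain ⟨M, hM⟩ : ∃ M : ℝ, M = (∫ x, Real.exp x ∂μ) + ∫ x, Real.exp (-x) ∂μ := ⟨_, rfl⟩
  rw [← hM] at hmain ⊢
  have hM0 : 0 ≤ M := by
    rw [hM]
    exact add_nonneg (integral_nonneg fun x => (Real.exp_pos _).le) (integral_nonneg fun x => (Real.exp_pos _).le)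
  refine hmain.trans ?_
  have hT3 : Real.exp (-Real.log n) = (n : ℝ)⁻¹ := by rw [Real.exp_neg, Real.exp_log hx]
  have hT1 : ((n * (2 * n + 1) ^ d : ℕ) : ℝ) * (M * Real.exp (-((d + 2) * Real.log n))) ≤ M * 3 ^ d * (n : ℝ)⁻¹ := by
    have e1 : Real.exp (-((d + 2) * Real.log n)) = ((n : ℝ) ^ (d + 2))⁻¹ := by
      rw [Real.exp_neg, show ((d : ℝ) + 2) * Real.log n = ((d + 2 : ℕ) : ℝ) * Real.log n by push_cast; ring,
        Real.exp_nat_mul, Real.exp_log hx]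
    rw [e1]
    have e2 : ((n * (2 * n + 1) ^ d : ℕ) : ℝ) ≤ n * (3 * n) ^ d := by
      push_cast
      gcongr
      linarith
    calc ((n * (2 * n + 1) ^ d : ℕ) : ℝ) * (M * ((n : ℝ) ^ (d + 2))⁻¹) ≤ (n * (3 * n) ^ d) * (M * ((n : ℝ) ^ (d + 2))⁻¹) := by gcongr
      _ = M * 3 ^ d * (n : ℝ)⁻¹ := by
        rw [mul_pow, pow_add]
        field_simp
  have hT2 : 2 * (m * Real.log (2 * d) + 2 * β * (m * ((d + 2) * Real.log n)) + Real.log n) *
      √((k * (2 * ⌊r⌋₊ + 1) ^ d : ℕ)) / (β * k) ≤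
      (2 * C1 * √(3 ^ d) * √2 / β) * (Real.log n * (n : ℝ) ^ (-((1 - a * (d + 2)) / 2))) := by
    have s1 : m * Real.log (2 * d) + 2 * β * (m * ((d + 2) * Real.log n)) + Real.log n ≤ C1 * r * Real.log n := by
      have t1 : (m : ℝ) * Real.log (2 * d) ≤ 4 * K * Real.log (2 * d) * r * Real.log n := by
        calc (m : ℝ) * Real.log (2 * d) ≤ (4 * K * r) * Real.log (2 * d) := by gcongr
          _ = (4 * K * Real.log (2 * d) * r) * 1 := by ring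
          _ ≤ (4 * K * Real.log (2 * d) * r) * Real.log n := by
            apply mul_le_mul_of_nonneg_left h2; positivity
      have t2 : 2 * β * (m * ((d + 2) * Real.log n)) ≤ 8 * β * K * (d + 2) * r * Real.log n := by
        calc 2 * β * (m * ((d + 2) * Real.log n)) ≤ 2 * β * ((4 * K * r) * ((d + 2) * Real.log n)) := by gcongr
          _ = _ := by ring
      have t3 : Real.log n ≤ r * Real.log n := by
        nlinarith
      rw [hC1]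
      nlinarith
    have s2 : √((k * (2 * ⌊r⌋₊ + 1) ^ d : ℕ)) ≤ √k * (√(3 ^ d) * (n : ℝ) ^ (a * d / 2)) := by
      have e3 : √((r : ℝ) ^ d) = (n : ℝ) ^ (a * d / 2) := by
        rw [hr, ← Real.rpow_natCast, ← Real.rpow_mul hx.le, Real.sqrt_eq_rpow, ← Real.rpow_mul hx.le]
        congr 1; ring
      rw [← e3, ← Real.sqrt_mul (by positivity), ← Real.sqrt_mul (by positivity)]
      apply Real.sqrt_le_sqrt
      push_cast
      rw [← mul_pow, ← hB]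
      gcongr
      linarith
    have s3 : √k * √k = k := Real.mul_self_sqrt hk0.le
    have hsk : 0 < √(k : ℝ) := Real.sqrt_pos.2 hk0
    have s4 : √(n : ℝ) ≤ √2 * √k := by
      rw [← Real.sqrt_mul (by norm_num)]
      apply Real.sqrt_le_sqrt; linarith
    have hsn : 0 < √(n : ℝ) := Real.sqrt_pos.2 hx
    have s5 : r * (n : ℝ) ^ (a * d / 2) = √n * (n : ℝ) ^ (-((1 - a * (d + 2)) / 2)) := by
      rw [hr, Real.sqrt_eq_rpow, ← Real.rpow_add hx, ← Real.rpow_add hx]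
      congr 1; ring
    obtain ⟨g, hg⟩ : ∃ g : ℝ, g = (n : ℝ) ^ (-((1 - a * (d + 2)) / 2)) := ⟨_, rfl⟩
    have hg0 : 0 ≤ g := by rw [hg]; positivity
    rw [← hg] at s5 ⊢
    have hA0 : 0 ≤ m * Real.log (2 * d) + 2 * β * (m * ((d + 2) * Real.log n)) + Real.log n := by positivity
    have hln : 0 ≤ Real.log n := by linarith
    calc 2 * (m * Real.log (2 * d) + 2 * β * (m * ((d + 2) * Real.log n)) + Real.log n) *
        √((k * (2 * ⌊r⌋₊ + 1) ^ d : ℕ)) / (β * k)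
        ≤ 2 * (C1 * r * Real.log n) * (√k * (√(3 ^ d) * (n : ℝ) ^ (a * d / 2))) / (β * k) := by
          gcongr
      _ = 2 * C1 * √(3 ^ d) * Real.log n * (r * (n : ℝ) ^ (a * d / 2)) / (β * √k) := by
          have e5 : β * (k : ℝ) = (β * √k) * √k := by rw [mul_assoc, s3]
          rw [e5]
          field_simp
      _ = 2 * C1 * √(3 ^ d) * Real.log n * (√n * g) / (β * √k) := by rw [s5]
      _ ≤ 2 * C1 * √(3 ^ d) * Real.log n * ((√2 * √k) * g) / (β * √k) := by gcongr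
      _ = (2 * C1 * √(3 ^ d) * √2 / β) * (Real.log n * g) := by
          field_simp
  rw [hT3]
  have hC := hg.C_nonneg
  have hln : 0 ≤ Real.log n := by linarith
  obtain ⟨t, ht⟩ : ∃ t : ℝ, t = m * Real.log (2 * d) + 2 * β * (m * ((d + 2) * Real.log n)) + Real.log n := ⟨_, rfl⟩
  have ht0 : 0 ≤ t := by rw [ht]; positivity
  rw [← ht] at hT2 hmain ⊢
  obtain ⟨y, hy⟩ : ∃ y : ℝ, y = Real.log n * (n : ℝ) ^ (-((1 - a * (d + 2)) / 2)) := ⟨_, rfl⟩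
  have hy0 : 0 ≤ y := by rw [hy]; positivity
  rw [← hy] at hT2 ⊢
  obtain ⟨Q, hQ⟩ : ∃ Q : ℝ, Q = ((k * (2 * ⌊r⌋₊ + 1) ^ d : ℕ) : ℝ) := ⟨_, rfl⟩
  have hQ0 : 0 ≤ Q := by rw [hQ]; positivity
  rw [← hQ] at hT2 ⊢
  have hT4 : t * √Q / (β * k) ≤ C1 * √(3 ^ d) * √2 / β * y := by
    have e6 : 2 * t * √Q / (β * k) = 2 * (t * √Q / (β * k)) := by ring
    have e7 : 2 * C1 * √(3 ^ d) * √2 / β * y = 2 * (C1 * √(3 ^ d) * √2 / β * y) := by ring
    rw [e6, e7] at hT2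
    linarith
  have hT5 : Q * (N * (3 * t / (β * k))) ^ 2 ≤ 9 * N ^ 2 * (C1 * √(3 ^ d) * √2 / β * y) ^ 2 := by
    have e8 : Q * (N * (3 * t / (β * k))) ^ 2 = 9 * N ^ 2 * (t * √Q / (β * k)) ^ 2 := by
      have e9 : √Q ^ 2 = Q := Real.sq_sqrt hQ0
      calc Q * (N * (3 * t / (β * k))) ^ 2 = √Q ^ 2 * (N * (3 * t / (β * k))) ^ 2 := by rw [e9]
        _ = _ := by ring
    rw [e8]
    gcongr
  refine add_le_add (add_le_add hT1 (add_le_add le_rfl ?_)) le_rfl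
  gcongr

theorem tends2 {μ : Measure ℝ} [IsProbabilityMeasure μ] {g : ℝ → ℝ} {C : ℝ} (hg : SqrtDensity μ g C)
    (he1 : Integrable (fun x => Real.exp x) μ) (he2 : Integrable (fun x => Real.exp (-x)) μ)
    (hd : 1 ≤ d) {β : ℝ} (hβ : 0 < β) {ω : ℕ × (Fin d → ℤ) → Ω → ℝ} (hm : ∀ s, Measurable (ω s))
    (hi : iIndepFun ω P) (hl : ∀ s, P.map (ω s) = μ) {a : ℝ} (ha : 0 < a)
    (ha1 : a < 1 / (d + 2)) :
    Tendsto (fun n : ℕ => ∫ o, probStay β (fun i x => ω (i, x) o) n ((n : ℝ) ^ a) ∂P) atTop (𝓝 0) := by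
  have ha1' : a * (d + 2) < 1 := by
    rwa [lt_div_iff₀ (by positivity)] at ha1
  rw [Metric.tendsto_atTop']
  have key : ∀ ε > 0, ∀ᶠ n : ℕ in atTop, ∫ o, probStay β (fun i x => ω (i, x) o) n ((n : ℝ) ^ a) ∂P < ε := by
    intro ε hε
    obtain ⟨K, hK⟩ := exists_nat_one_div_lt (show 0 < ε / 4 by linarith)
    have hK2 : (0 : ℝ) < (K + 1) ^ 2 := by positivity
    obtain ⟨N', hN'⟩ := exists_nat_one_div_lt (show 0 < ε / (4 * (K + 1) ^ 2) by positivity)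
    obtain ⟨N, hNN⟩ : ∃ N : ℕ, N = N' + 1 := ⟨_, rfl⟩
    have hN : 1 ≤ N := by omega
    have hN2 : 1 / (N : ℝ) < ε / (4 * (K + 1) ^ 2) := by rw [hNN]; push_cast; exact hN'
    obtain ⟨l, hl'⟩ : ∃ l : ℝ, l = ε / (8 * (K + 1) ^ 2) := ⟨_, rfl⟩
    have hl0 : 0 < l := by rw [hl']; positivity
    obtain ⟨D, hD⟩ := asymp2 hg he1 he2 hd hβ hm hi hl K N hN hl0 ha ha1'
    obtain ⟨M, hM⟩ : ∃ M : ℝ, M = (∫ x, Real.exp x ∂μ) + ∫ x, Real.exp (-x) ∂μ := ⟨_, rfl⟩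
    rw [← hM] at hD
    have hinv : Tendsto (fun n : ℕ => ((n : ℝ))⁻¹) atTop (𝓝 0) :=
      tendsto_inv_atTop_zero.comp tendsto_natCast_atTop_atTop
    have hδ : 0 < (1 - a * (d + 2)) / 2 := by linarith
    have hlg : Tendsto (fun n : ℕ => Real.log n * (n : ℝ) ^ (-((1 - a * (d + 2)) / 2))) atTop (𝓝 0) := by
      have h1 := (isLittleO_log_rpow_atTop hδ).tendsto_div_nhds_zero
      have h2 := h1.comp tendsto_natCast_atTop_atTop
      refine h2.congr' ?_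
      filter_upwards [eventually_ge_atTop 1] with n hn
      have hx : (0 : ℝ) ≤ n := by positivity
      simp only [Function.comp]
      rw [Real.rpow_neg hx, div_eq_mul_inv]
    have hlim : Tendsto (fun n : ℕ => M * 3 ^ d * (n : ℝ)⁻¹ + (1 / ((K : ℝ) + 1) + ((K : ℝ) + 1) ^ 2 *
        (1 / N + (C * (9 * N ^ 2 * (D * (Real.log n * (n : ℝ) ^ (-((1 - a * (d + 2)) / 2)))) ^ 2) / (2 * l) + 2 * l))) +
        (n : ℝ)⁻¹) atTop (𝓝 (M * 3 ^ d * 0 + (1 / ((K : ℝ) + 1) + ((K : ℝ) + 1) ^ 2 *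
        (1 / N + (C * (9 * N ^ 2 * (D * 0) ^ 2) / (2 * l) + 2 * l))) + 0)) := by
      refine ((hinv.const_mul _).add (tendsto_const_nhds.add (Tendsto.const_mul _ (tendsto_const_nhds.add ?_)))).add hinv
      exact (((((hlg.const_mul D).pow 2).const_mul (9 * (N : ℝ) ^ 2)).const_mul C).div_const (2 * l)).add tendsto_const_nhds
    have hval : M * 3 ^ d * 0 + (1 / ((K : ℝ) + 1) + ((K : ℝ) + 1) ^ 2 *
        (1 / N + (C * (9 * N ^ 2 * (D * 0) ^ 2) / (2 * l) + 2 * l))) + 0 < ε := by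
      have e1 : ((K : ℝ) + 1) ^ 2 * (1 / N) < ((K : ℝ) + 1) ^ 2 * (ε / (4 * (K + 1) ^ 2)) := by gcongr
      have e2 : ((K : ℝ) + 1) ^ 2 * (ε / (4 * (K + 1) ^ 2)) = ε / 4 := by field_simp
      have e3 : ((K : ℝ) + 1) ^ 2 * (2 * l) = ε / 4 := by rw [hl']; field_simp; norm_num
      have e4 : M * 3 ^ d * 0 + (1 / ((K : ℝ) + 1) + ((K : ℝ) + 1) ^ 2 *
        (1 / N + (C * (9 * N ^ 2 * (D * 0) ^ 2) / (2 * l) + 2 * l))) + 0 =
        1 / ((K : ℝ) + 1) + ((K : ℝ) + 1) ^ 2 * (1 / N) + ((K : ℝ) + 1) ^ 2 * (2 * l) := by ring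
      rw [e4]
      linarith
    filter_upwards [hD, hlim.eventually_lt_const hval] with n h1 h2
    exact h1.trans_lt h2
  intro ε hε
  obtain ⟨N, hN⟩ := eventually_atTop.1 (key ε hε)
  refine ⟨N, fun n hn => ?_⟩
  have h0 : 0 ≤ ∫ o, probStay β (fun i x => ω (i, x) o) n ((n : ℝ) ^ a) ∂P :=
    integral_nonneg (fun o => div_nonneg (stay_nonneg _ _ _ _) (total_pos hd _ _ _).le)
  rw [Real.dist_eq, sub_zero, abs_of_nonneg h0]
  exact hN n hn.le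

end Pool.Agent.H964.NU
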