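import Pool.Agent.H964.NU.Anti

/-! Symmetry: the largest of `K + 1` exchangeable functionals. -/

set_option autoImplicit false

open MeasureTheory ProbabilityTheory Filter Topology

namespace Pool.Agent.H964.NU

variable {S Ω : Type*} [MeasurableSpace Ω] {P : Measure Ω} [IsProbabilityMeasure P]

theorem sym_bound [DecidableEq S] {X : S → Ω → ℝ} (hm : ∀ s, Measurable (X s)) (hi : iIndepFun X P)
    (hl : ∀ s, P.map (X s) = gaussianReal 0 1) (J : Finset S) (hJ : J.Nonempty) {K : ℕ}
    (τ : Fin (K + 1) → S → S) (hτ : Function.Injective (fun p : Fin (K + 1) × J => τ p.1 p.2))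
    (Φ : (J → ℝ) → ℝ) (hΦ : Measurable Φ) {a t : ℝ} (ha : 0 < a) (ht : 0 ≤ t)
    (hΦa : ∀ u c, Φ (fun s => u s + c) = Φ u + a * c) :
    P.real {o | ∀ j, Φ (fun s => X (τ j s) o) ≤ Φ (fun s => X (τ 0 s) o) + t} ≤
      1 / (K + 1) + (K + 1) ^ 2 * (2 * t * √(J.card) / a) := by
  classical
  obtain ⟨q, hq⟩ : ∃ q : ℝ, q = 2 * t * √(J.card) / a := ⟨_, rfl⟩
  have hq0 : 0 ≤ q := by rw [hq]; positivity
  rw [← hq]
  let F : Fin (K + 1) → Ω → ℝ := fun j o => Φ (fun s => X (τ j s) o)
  have hFm : ∀ j, Measurable (F j) := fun j => hΦ.comp (measurable_pi_lambda _ (fun s => hm _))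
  have htie : ∀ i j, i ≠ j → P {o | |F i o - F j o| ≤ t} ≤ ENNReal.ofReal q := by
    intro i j hij
    have hinj : Set.InjOn (τ i) J := by
      intro x hx y hy hxy
      have := @hτ (i, ⟨x, hx⟩) (i, ⟨y, hy⟩) hxy
      simpa using this
    have hcard : (J.image (τ i)).card = J.card := Finset.card_image_of_injOn hinj
    have h1 := anti hm hi hl (J.image (τ i)) (hJ.image _)
      (fun x => Φ (fun s => x (τ i s)) - Φ (fun s => x (τ j s)))
      (by
        apply Measurable.sub
        · exact hΦ.comp (measurable_pi_lambda _ (fun s => measurable_pi_apply _))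
        · exact hΦ.comp (measurable_pi_lambda _ (fun s => measurable_pi_apply _))) ha ht
      (by
        intro x c
        have e1 : ∀ s : J, τ i s ∈ J.image (τ i) := fun s => Finset.mem_image_of_mem _ s.2
        have e2 : ∀ s : J, τ j s ∉ J.image (τ i) := by
          intro s hs
          rw [Finset.mem_image] at hs
          obtain ⟨u, hu, hus⟩ := hs
          have := @hτ (i, ⟨u, hu⟩) (j, s) hus
          exact hij (congrArg Prod.fst this)
        simp only [e1, e2, if_true, if_false, add_zero]
        rw [hΦa (fun s : J => x (τ i s)) c]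
        ring)
    rw [hcard, ← hq] at h1
    exact h1
  let E : Fin (K + 1) → Set Ω := fun i => {o | ∀ j, F j o ≤ F i o + t}
  have hEm : ∀ i, MeasurableSet (E i) := by
    intro i
    have : E i = ⋂ j, {o | F j o ≤ F i o + t} := by ext o; simp [E]
    rw [this]
    exact MeasurableSet.iInter (fun j => measurableSet_le (hFm j) ((hFm i).add_const t))
  have hlaw : ∀ g : Fin (K + 1) × J → S, Function.Injective g →
      P.map (fun o (p : Fin (K + 1) × J) => X (g p) o) = Measure.pi (fun _ => gaussianReal 0 1) := by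
    intro g hg
    have h1 : iIndepFun (fun p => X (g p)) P := hi.precomp hg
    have h2 := (iIndepFun_iff_map_fun_eq_pi_map (fun p => (hm (g p)).aemeasurable)).1 h1
    rw [h2]
    congr 1
    funext p
    exact hl _
  let A : Set (Fin (K + 1) × J → ℝ) := {u | ∀ j, Φ (fun s => u (j, s)) ≤ Φ (fun s => u (0, s)) + t}
  have hAm : MeasurableSet A := by
    have hc : ∀ j : Fin (K + 1), Measurable (fun u : Fin (K + 1) × J → ℝ => Φ (fun s => u (j, s))) :=
      fun j => hΦ.comp (measurable_pi_lambda _ (fun s => measurable_pi_apply _))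
    have : A = ⋂ j, {u | Φ (fun s => u (j, s)) ≤ Φ (fun s => u (0, s)) + t} := by ext o; simp [A]
    rw [this]
    exact MeasurableSet.iInter (fun j => measurableSet_le (hc j) ((hc 0).add_const t))
  have hEeq : ∀ i, P (E i) = P (E 0) := by
    intro i
    let π : Equiv.Perm (Fin (K + 1)) := Equiv.swap 0 i
    have hg1 : Function.Injective (fun p : Fin (K + 1) × J => τ (π p.1) p.2) := by
      intro p p' h
      have := @hτ (π p.1, p.2) (π p'.1, p'.2) h
      simp only [Prod.mk.injEq, EmbeddingLike.apply_eq_iff_eq] at this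
      exact Prod.ext this.1 this.2
    have h1 := hlaw _ hτ
    have h2 := hlaw _ hg1
    have m1 : Measurable (fun o (p : Fin (K + 1) × J) => X (τ p.1 p.2) o) := measurable_pi_lambda _ (fun p => hm _)
    have m2 : Measurable (fun o (p : Fin (K + 1) × J) => X (τ (π p.1) p.2) o) := measurable_pi_lambda _ (fun p => hm _)
    have h3 : P (E 0) = (Measure.pi (fun _ : Fin (K + 1) × J => gaussianReal 0 1)) A := by
      rw [← h1, Measure.map_apply m1 hAm]
      rfl
    have h4 : P (E i) = (Measure.pi (fun _ : Fin (K + 1) × J => gaussianReal 0 1)) A := by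
      rw [← h2, Measure.map_apply m2 hAm]
      congr 1
      ext o
      simp only [E, A, F, Set.mem_setOf_eq, Set.mem_preimage]
      constructor
      · intro h j
        have := h (π j)
        rw [show π 0 = i from Equiv.swap_apply_left 0 i]
        exact this
      · intro h j
        have := h (π j)
        rw [show π 0 = i from Equiv.swap_apply_left 0 i, show π (π j) = j from Equiv.swap_apply_self 0 i j] at this
        exact this
    rw [h3, h4]
  let T : Set Ω := ⋃ p ∈ (Finset.univ : Finset (Fin (K + 1) × Fin (K + 1))).filter (fun p => p.1 ≠ p.2), {o | |F p.1 o - F p.2 o| ≤ t}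
  have hTm : MeasurableSet T := by
    apply Finset.measurableSet_biUnion
    intro p _
    exact measurableSet_le (((hFm _).sub (hFm _)).abs) measurable_const
  have hT : P T ≤ ENNReal.ofReal ((K + 1) ^ 2 * q) := by
    refine (measure_biUnion_finset_le _ _).trans ?_
    calc ∑ p ∈ (Finset.univ : Finset (Fin (K + 1) × Fin (K + 1))).filter (fun p => p.1 ≠ p.2), P {o | |F p.1 o - F p.2 o| ≤ t}
        ≤ ∑ p ∈ (Finset.univ : Finset (Fin (K + 1) × Fin (K + 1))).filter (fun p => p.1 ≠ p.2), ENNReal.ofReal q := by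
          apply Finset.sum_le_sum
          intro p hp
          exact htie _ _ (Finset.mem_filter.1 hp).2
      _ ≤ ∑ p : Fin (K + 1) × Fin (K + 1), ENNReal.ofReal q :=
          Finset.sum_le_sum_of_subset (Finset.filter_subset _ _)
      _ = ENNReal.ofReal ((K + 1) ^ 2 * q) := by
          rw [Finset.sum_const, Finset.card_univ, Fintype.card_prod, Fintype.card_fin, nsmul_eq_mul,
            ENNReal.ofReal_mul (by positivity)]
          congr 1
          rw [show ((K : ℝ) + 1) ^ 2 = (((K + 1) * (K + 1) : ℕ) : ℝ) by push_cast; ring, ENNReal.ofReal_natCast]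
  have hdisj : ∀ i j, i ≠ j → Disjoint (E i \ T) (E j \ T) := by
    intro i j hij
    rw [Set.disjoint_left]
    rintro o ⟨h1, h2⟩ ⟨h3, _⟩
    have h5 := h1 j
    have h6 := h3 i
    apply h2
    simp only [T, Set.mem_iUnion, Finset.mem_filter, Finset.mem_univ, true_and, Set.mem_setOf_eq, exists_prop, Prod.exists]
    refine ⟨i, j, hij, ?_⟩
    rw [abs_le]
    constructor <;> linarith
  have hsum : ∑ i, P (E i \ T) ≤ 1 := by
    have := sum_measure_le_measure_univ (μ := P) (s := Finset.univ) (t := fun i => E i \ T)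
      (fun i _ => ((hEm i).diff hTm).nullMeasurableSet)
      (fun i _ j _ hij => (hdisj i j hij).aedisjoint)
    rwa [measure_univ] at this
  have hfin : ((K : ENNReal) + 1) * P (E 0) ≤ 1 + (K + 1) * P T := by
    have h1 : ∑ i : Fin (K + 1), P (E i) = ((K : ENNReal) + 1) * P (E 0) := by
      rw [Finset.sum_congr rfl (fun i _ => hEeq i)]
      simp
    have h2 : ∑ i : Fin (K + 1), P (E i) ≤ ∑ i : Fin (K + 1), (P (E i \ T) + P T) := by
      apply Finset.sum_le_sum
      intro i _
      refine (measure_mono (t := (E i \ T) ∪ T) ?_).trans (measure_union_le _ _)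
      intro o ho
      by_cases h : o ∈ T
      · exact Or.inr h
      · exact Or.inl ⟨ho, h⟩
    rw [Finset.sum_add_distrib] at h2
    rw [← h1]
    refine h2.trans ?_
    gcongr
    simp
  have hreal : ((K : ℝ) + 1) * P.real (E 0) ≤ 1 + (K + 1) * P.real T := by
    have hk : ((K : ENNReal) + 1) ≠ ⊤ := by simp
    have hkr : ((K : ENNReal) + 1).toReal = (K : ℝ) + 1 := by
      rw [ENNReal.toReal_add (by simp) (by simp)]; simp
    have hkT : ((K : ENNReal) + 1) * P T ≠ ⊤ := ENNReal.mul_ne_top hk (measure_ne_top _ _)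
    have h1 := ENNReal.toReal_mono (ENNReal.add_ne_top.2 ⟨by simp, hkT⟩) hfin
    rw [ENNReal.toReal_mul, ENNReal.toReal_add (by simp) hkT, ENNReal.toReal_mul, hkr] at h1
    simpa [Measure.real] using h1
  have hTr : P.real T ≤ (K + 1) ^ 2 * q := by
    rw [Measure.real]
    exact ENNReal.toReal_le_of_le_ofReal (by positivity) hT
  have hgoal : P.real (E 0) ≤ 1 / (K + 1) + (K + 1) ^ 2 * q := by
    have hK : (0 : ℝ) < K + 1 := by positivity
    have : ((K : ℝ) + 1) * P.real (E 0) ≤ ((K : ℝ) + 1) * (1 / (K + 1) + (K + 1) ^ 2 * q) := by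
      refine hreal.trans ?_
      rw [mul_add, mul_one_div_cancel hK.ne']
      gcongr
    exact le_of_mul_le_mul_left this hK
  exact hgoal

end Pool.Agent.H964.NU
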