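import Pool.Agent.H964.NU.Tube
import Pool.Agent.H964.NU.Sym

/-! The bound for fixed `n`. -/

set_option autoImplicit false

open MeasureTheory ProbabilityTheory Filter Topology

namespace Pool.Agent.H964.NU

variable {d : ℕ} {Ω : Type*} [MeasurableSpace Ω] {P : Measure Ω} [IsProbabilityMeasure P]

/-- The functional of the tube. -/
noncomputable def Phi (β : ℝ) (k : ℕ) (R : ℝ) (u : sites d k ⌊R⌋₊ → ℝ) : ℝ :=
  Real.log (stay β (fun i x => if h : (i, x) ∈ sites d k ⌊R⌋₊ then u ⟨(i, x), h⟩ else 0) k R)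

theorem measurable_stay {ι : Type*} [MeasurableSpace ι] (β : ℝ) (k : ℕ) (R : ℝ)
    (w : ι → ℕ → (Fin d → ℤ) → ℝ) (hw : ∀ i x, Measurable (fun u => w u i x)) :
    Measurable (fun u => stay β (w u) k R) := by
  classical
  unfold stay
  apply Finset.measurable_sum
  intro σ _
  by_cases h : ∀ i ≤ k, ‖walk σ i‖ ≤ R
  · simp only [if_pos h]
    apply Real.measurable_exp.comp
    apply Measurable.const_mul
    unfold energy
    apply Finset.measurable_sum
    intro i _
    exact hw _ _
  · simp only [if_neg h]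
    exact measurable_const

theorem measurable_total {ι : Type*} [MeasurableSpace ι] (β : ℝ) (k : ℕ)
    (w : ι → ℕ → (Fin d → ℤ) → ℝ) (hw : ∀ i x, Measurable (fun u => w u i x)) :
    Measurable (fun u => total β (w u) k) := by
  unfold total
  apply Finset.measurable_sum
  intro σ _
  apply Real.measurable_exp.comp
  apply Measurable.const_mul
  unfold energy
  apply Finset.measurable_sum
  intro i _
  exact hw _ _

theorem measurable_Phi (β : ℝ) (k : ℕ) (R : ℝ) : Measurable (Phi (d := d) β k R) := by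
  unfold Phi
  apply Real.measurable_log.comp
  apply measurable_stay
  intro i x
  by_cases h : (i, x) ∈ sites d k ⌊R⌋₊
  · simp only [h, dif_pos]
    exact measurable_pi_apply _
  · simp only [h, dif_neg, not_false_eq_true]
    exact measurable_const

theorem Phi_shift (hd : 1 ≤ d) {β : ℝ} {k : ℕ} {R : ℝ} (hR : 1 ≤ R) (u : sites d k ⌊R⌋₊ → ℝ) (c : ℝ) :
    Phi β k R (fun s => u s + c) = Phi β k R u + (β * k) * c := by
  unfold Phi
  rw [stay_shift (w := fun i x => if h : (i, x) ∈ sites d k ⌊R⌋₊ then u ⟨(i, x), h⟩ else 0) (c := c)]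
  · rw [Real.log_mul (Real.exp_pos _).ne' (stay_pos hd β _ k hR).ne', Real.log_exp]
    ring
  · intro i x h1 h2 h3
    have : (i, x) ∈ sites d k ⌊R⌋₊ := (mem_sites (by linarith) k i x).2 ⟨⟨h1, h2⟩, h3⟩
    simp only [this, dif_pos]

theorem Phi_eq {β : ℝ} {k : ℕ} {R : ℝ} (hR : 1 ≤ R) (w : ℕ → (Fin d → ℤ) → ℝ) :
    Phi β k R (fun s : sites d k ⌊R⌋₊ => w s.1.1 s.1.2) = Real.log (stay β w k R) := by
  unfold Phi
  congr 1
  have := stay_shift (β := β) (w := w) (w' := fun i x => if h : (i, x) ∈ sites d k ⌊R⌋₊ then w i x else 0)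
    (k := k) (R := R) (c := 0) (by
      intro i x h1 h2 h3
      have : (i, x) ∈ sites d k ⌊R⌋₊ := (mem_sites (by linarith) k i x).2 ⟨⟨h1, h2⟩, h3⟩
      simp only [this, dif_pos, add_zero])
  rw [mul_zero, mul_zero, Real.exp_zero, one_mul] at this
  exact this

theorem gauss_tail {G : Ω → ℝ} (hG : Measurable G) (hl : P.map G = gaussianReal 0 1) (Λ : ℝ) :
    P.real {o | Λ < |G o|} ≤ 4 * Real.exp (-Λ) := by
  have hint : ∀ s : ℝ, Integrable (fun o => Real.exp (s * G o)) P := by
    intro s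
    have h1 : Integrable (fun x => Real.exp (s * x)) (P.map G) := by
      rw [hl]; exact integrable_exp_mul_gaussianReal s
    exact h1.comp_measurable hG
  have hmgf : ∀ s : ℝ, mgf G P s = Real.exp (s ^ 2 / 2) := by
    intro s
    rw [mgf_gaussianReal hl]; congr 1; simp
  have h1 : P.real {o | Λ ≤ G o} ≤ Real.exp (-1 * Λ) * mgf G P 1 := measure_ge_le_exp_mul_mgf Λ zero_le_one (hint 1)
  have h2 : P.real {o | G o ≤ -Λ} ≤ Real.exp (-(-1) * (-Λ)) * mgf G P (-1) :=
    measure_le_le_exp_mul_mgf (-Λ) (by norm_num) (hint (-1))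
  rw [hmgf] at h1 h2
  have h3 : Real.exp (1 / 2) ≤ 2 := by
    have := Real.exp_one_lt_d9
    have h4 : Real.exp (1 / 2) ^ 2 = Real.exp 1 := by rw [← Real.exp_nat_mul]; norm_num
    nlinarith [Real.exp_pos (1 / 2)]
  have h5 : P.real {o | Λ < |G o|} ≤ P.real {o | Λ ≤ G o} + P.real {o | G o ≤ -Λ} := by
    refine le_trans (measureReal_mono ?_) (measureReal_union_le _ _)
    intro o ho
    rcases lt_abs.1 (show Λ < |G o| from ho) with h | h
    · exact Or.inl h.le
    · right
      show G o ≤ -Λ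
      linarith
  have e1 : Real.exp (-1 * Λ) = Real.exp (-Λ) := by congr 1; ring
  have e2 : Real.exp (-(-1) * (-Λ)) = Real.exp (-Λ) := by congr 1; ring
  rw [e1] at h1
  rw [e2] at h2
  have e3 : Real.exp ((1 : ℝ) ^ 2 / 2) = Real.exp (1 / 2) := by norm_num
  have e4 : Real.exp ((-1 : ℝ) ^ 2 / 2) = Real.exp (1 / 2) := by norm_num
  rw [e3] at h1
  rw [e4] at h2
  have := Real.exp_pos (-Λ)
  nlinarith

theorem bad_bound {ω : ℕ × (Fin d → ℤ) → Ω → ℝ} (hm : ∀ s, Measurable (ω s))
    (hl : ∀ s, P.map (ω s) = gaussianReal 0 1) (n : ℕ) (Λ : ℝ) :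
    P.real (⋃ s ∈ sites d n n, {o | Λ < |ω s o|}) ≤ (n * (2 * n + 1) ^ d : ℕ) * (4 * Real.exp (-Λ)) := by
  refine (measureReal_biUnion_finset_le _ _).trans ?_
  calc ∑ s ∈ sites d n n, P.real {o | Λ < |ω s o|} ≤ ∑ s ∈ sites d n n, 4 * Real.exp (-Λ) := by
        apply Finset.sum_le_sum
        intro s _
        exact gauss_tail (hm s) (hl s) Λ
    _ = _ := by
        rw [Finset.sum_const, card_sites, nsmul_eq_mul]

theorem main_bound (hd : 1 ≤ d) {β : ℝ} (hβ : 0 < β) {ω : ℕ × (Fin d → ℤ) → Ω → ℝ} (hm : ∀ s, Measurable (ω s))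
    (hi : iIndepFun ω P) (hl : ∀ s, P.map (ω s) = gaussianReal 0 1) (K k m n : ℕ) {R Λ L : ℝ} (hR : 1 ≤ R)
    (hm' : m = 2 * (⌊R⌋₊ + 1) * K) (hn : n = m + k) (hk : 1 ≤ k) (hRn : R ≤ (n : ℝ)) (hΛ : 0 ≤ Λ) (hL : 0 ≤ L) :
    ∫ o, probStay β (fun i x => ω (i, x) o) n R ∂P ≤
      (n * (2 * n + 1) ^ d : ℕ) * (4 * Real.exp (-Λ)) + (1 / (K + 1) + (K + 1) ^ 2 *
        (2 * (m * Real.log (2 * d) + 2 * β * (m * Λ) + L) * √((k * (2 * ⌊R⌋₊ + 1) ^ d : ℕ)) / (β * k))) +
        Real.exp (-L) := by
  classical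
  have hk0 : (0 : ℝ) < k := by exact_mod_cast hk
  obtain ⟨t, ht⟩ : ∃ t : ℝ, t = m * Real.log (2 * d) + 2 * β * (m * Λ) + L := ⟨_, rfl⟩
  have hlog : 0 ≤ Real.log (2 * d) := by
    apply Real.log_nonneg
    have : (1 : ℝ) ≤ d := by exact_mod_cast hd
    linarith
  have ht0 : 0 ≤ t := by rw [ht]; positivity
  rw [← ht]
  let B := ⌊R⌋₊
  let J := sites d k B
  have hJ : J.Nonempty := by
    refine ⟨(1, 0), ?_⟩
    rw [mem_sites (by linarith)]
    refine ⟨⟨le_rfl, hk⟩, ?_⟩
    rw [norm_zero]; linarith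
  let v : Fin (K + 1) → Fin d → ℤ := fun j => Pi.single ⟨0, hd⟩ ((2 * (B + 1) * (j : ℕ) : ℕ) : ℤ)
  let τ : Fin (K + 1) → ℕ × (Fin d → ℤ) → ℕ × (Fin d → ℤ) := fun j s => if j = 0 then s else (m + s.1, v j + s.2)
  have hτ2 : ∀ j s, (τ j s).2 = v j + s.2 := by
    intro j s
    by_cases h : j = 0
    · subst h
      simp [τ, v]
    · simp [τ, h]
  have hτ : Function.Injective (fun p : Fin (K + 1) × J => τ p.1 p.2) := by
    rintro ⟨j, ⟨s, hs⟩⟩ ⟨j', ⟨s', hs'⟩⟩ h
    simp only at h
    have h2 := congrArg Prod.snd h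
    rw [hτ2, hτ2] at h2
    have h3 := congrFun h2 ⟨0, hd⟩
    simp only [v, Pi.add_apply, Pi.single_eq_same] at h3
    have hb : ∀ s ∈ J, |s.2 ⟨0, hd⟩| ≤ (B : ℤ) := by
      intro s hs
      have h4 := (Finset.mem_product.1 hs).2
      rw [box, Fintype.mem_piFinset] at h4
      have := h4 ⟨0, hd⟩
      rw [Finset.mem_Icc] at this
      rw [abs_le]; exact this
    have b1 := abs_le.1 (hb s hs)
    have b2 := abs_le.1 (hb s' hs')
    have hjj : j = j' := by
      have h5 : ((j : ℕ) : ℤ) = ((j' : ℕ) : ℤ) := by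
        push_cast at h3
        rcases lt_trichotomy ((j : ℕ) : ℤ) ((j' : ℕ) : ℤ) with h6 | h6 | h6
        · exfalso
          have : ((j : ℕ) : ℤ) + 1 ≤ ((j' : ℕ) : ℤ) := h6
          have hB : (0 : ℤ) ≤ 2 * ((B : ℤ) + 1) := by positivity
          nlinarith [mul_le_mul_of_nonneg_left this hB]
        · exact h6
        · exfalso
          have : ((j' : ℕ) : ℤ) + 1 ≤ ((j : ℕ) : ℤ) := h6
          have hB : (0 : ℤ) ≤ 2 * ((B : ℤ) + 1) := by positivity
          nlinarith [mul_le_mul_of_nonneg_left this hB]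
      exact Fin.ext (by exact_mod_cast h5)
    subst hjj
    have hs2 : s.2 = s'.2 := add_left_cancel h2
    have hs1 : s.1 = s'.1 := by
      have h1 := congrArg Prod.fst h
      by_cases h0 : j = 0
      · simp only [τ, h0, if_true] at h1
        exact h1
      · simp only [τ, h0, if_false] at h1
        omega
    simp only [Prod.mk.injEq, Subtype.mk.injEq, true_and]
    exact Prod.ext hs1 hs2
  have hsym := sym_bound hm hi hl J hJ τ hτ (Phi β k R) (measurable_Phi β k R) (a := β * k) (t := t)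
    (by positivity) ht0 (fun u c => Phi_shift hd hR u c)
  have hcard : J.card = k * (2 * B + 1) ^ d := card_sites k B
  rw [hcard] at hsym
  let E : Set Ω := {o | ∀ j, Phi β k R (fun s : J => ω (τ j s) o) ≤ Phi β k R (fun s : J => ω (τ 0 s) o) + t}
  have hEm : MeasurableSet E := by
    have hc : ∀ j, Measurable (fun o => Phi β k R (fun s : J => ω (τ j s) o)) :=
      fun j => (measurable_Phi β k R).comp (measurable_pi_lambda _ (fun s => hm _))
    have : E = ⋂ j, {o | Phi β k R (fun s : J => ω (τ j s) o) ≤ Phi β k R (fun s : J => ω (τ 0 s) o) + t} := by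
      ext o; simp [E]
    rw [this]
    exact MeasurableSet.iInter (fun j => measurableSet_le (hc j) ((hc 0).add_const t))
  let bad : Set Ω := ⋃ s ∈ sites d n n, {o | Λ < |ω s o|}
  have hbm : MeasurableSet bad := by
    apply Finset.measurableSet_biUnion
    intro s _
    exact measurableSet_lt measurable_const (hm s).abs
  have hpt : ∀ o, probStay β (fun i x => ω (i, x) o) n R ≤
      bad.indicator (fun _ => (1 : ℝ)) o + E.indicator (fun _ => (1 : ℝ)) o + Real.exp (-L) := by
    intro o
    have hi1 : 0 ≤ bad.indicator (fun _ => (1 : ℝ)) o := Set.indicator_nonneg (fun _ _ => zero_le_one) o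
    have hi2 : 0 ≤ E.indicator (fun _ => (1 : ℝ)) o := Set.indicator_nonneg (fun _ _ => zero_le_one) o
    have hle1 : probStay β (fun i x => ω (i, x) o) n R ≤ 1 := by
      rw [probStay]
      exact div_le_one_of_le₀ (stay_le_total _ _ _ _) (total_pos hd _ _ _).le
    have hexp := Real.exp_pos (-L)
    by_cases hb : o ∈ bad
    · rw [Set.indicator_of_mem hb]; linarith
    by_cases hE : o ∈ E
    · rw [Set.indicator_of_mem hE]; linarith
    have h1 : ∃ j, Phi β k R (fun s : J => ω (τ 0 s) o) + t < Phi β k R (fun s : J => ω (τ j s) o) := by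
      by_contra hcon
      push Not at hcon
      exact hE hcon
    obtain ⟨j, hj⟩ := h1
    have hj0 : j ≠ 0 := by
      rintro rfl
      linarith
    obtain ⟨u, hu⟩ := exists_prefix hd (B + 1) K j (by omega)
    subst hm'
    have hu' : walk u (2 * (B + 1) * K) = v j := hu
    have e0 : Phi β k R (fun s : J => ω (τ 0 s) o) = Real.log (stay β (fun i x => ω (i, x) o) k R) := by
      rw [← Phi_eq hR]
      congr 1
    have ej : Phi β k R (fun s : J => ω (τ j s) o) =
        Real.log (stay β (fun i x => ω ((2 * (B + 1) * K) + i, walk u (2 * (B + 1) * K) + x) o) k R) := by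
      rw [← Phi_eq hR]
      congr 1
      funext s
      simp only [τ, hj0, if_false, hu']
      rfl
    have hmain := probStay_le hd hβ.le (fun i x => ω (i, x) o) (m := 2 * (B + 1) * K) (k := k) (R := R) (Λ := Λ) hR
      (by rw [hn] at hRn; exact hRn) u (by
        intro i h1 h2 x hx
        by_contra hcon
        push Not at hcon
        apply hb
        simp only [bad, Set.mem_iUnion]
        refine ⟨(i, x), ?_, hcon⟩
        have := (mem_sites (d := d) (R := (n : ℝ)) (by positivity) n i x).2 ⟨⟨h1, by rw [hn]; exact h2⟩, by rw [hn]; exact hx⟩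
        rwa [Nat.floor_natCast] at this)
    rw [e0, ej] at hj
    rw [hn]
    refine hmain.trans ?_
    have : Real.exp (((2 * (B + 1) * K : ℕ) : ℝ) * Real.log (2 * d) + 2 * β * (((2 * (B + 1) * K : ℕ) : ℝ) * Λ) +
        Real.log (stay β (fun i x => ω (i, x) o) k R) -
        Real.log (stay β (fun i x => ω ((2 * (B + 1) * K) + i, walk u (2 * (B + 1) * K) + x) o) k R)) ≤ Real.exp (-L) := by
      apply Real.exp_le_exp.2
      rw [ht] at hj
      linarith
    linarith
  have hint : Integrable (fun o => bad.indicator (fun _ => (1 : ℝ)) o + E.indicator (fun _ => (1 : ℝ)) o + Real.exp (-L)) P := by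
    apply Integrable.add
    · apply Integrable.add
      · exact (integrable_const (1 : ℝ)).indicator hbm
      · exact (integrable_const (1 : ℝ)).indicator hEm
    · exact integrable_const _
  calc ∫ o, probStay β (fun i x => ω (i, x) o) n R ∂P
      ≤ ∫ o, (bad.indicator (fun _ => (1 : ℝ)) o + E.indicator (fun _ => (1 : ℝ)) o + Real.exp (-L)) ∂P := by
        apply integral_mono_of_nonneg
        · exact Eventually.of_forall (fun o => div_nonneg (stay_nonneg _ _ _ _) (total_pos hd _ _ _).le)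
        · exact hint
        · exact Eventually.of_forall hpt
    _ = P.real bad + P.real E + Real.exp (-L) := by
        rw [integral_add, integral_add, integral_indicator_const _ hbm, integral_indicator_const _ hEm]
        · simp
        · exact (integrable_const (1 : ℝ)).indicator hbm
        · exact (integrable_const (1 : ℝ)).indicator hEm
        · exact ((integrable_const (1 : ℝ)).indicator hbm).add ((integrable_const (1 : ℝ)).indicator hEm)
        · exact integrable_const _
    _ ≤ _ := by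
        have h1 := bad_bound (P := P) hm hl n Λ
        have h2 : P.real E ≤ _ := hsym
        exact add_le_add (add_le_add h1 h2) le_rfl

end Pool.Agent.H964.NU
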