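import Mathlib

/-! Directed polymer partition functions: definitions, concatenation of paths. -/

set_option autoImplicit false

open Finset

namespace Pool.Agent.H964.NU

/-- The unit step `± e_c` coded by `(c, b)`. -/
def step {d : ℕ} (s : Fin d × Bool) : Fin d → ℤ := Pi.single s.1 (if s.2 then 1 else -1)

/-- The position at time `i` of the path from `0` with the steps `σ 0, σ 1, …`. -/
def walk {d n : ℕ} (σ : Fin n → Fin d × Bool) (i : ℕ) : Fin d → ℤ :=
  ∑ j : Fin n, if (j : ℕ) < i then step (σ j) else 0

/-- The energy `∑_{i=1}^n w (i, S_i)`. -/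
def energy {d n : ℕ} (w : ℕ → (Fin d → ℤ) → ℝ) (σ : Fin n → Fin d × Bool) : ℝ :=
  ∑ i ∈ range n, w (i + 1) (walk σ (i + 1))

/-- The sum over all paths of length `n` of the Boltzmann weights. -/
noncomputable def total {d : ℕ} (β : ℝ) (w : ℕ → (Fin d → ℤ) → ℝ) (n : ℕ) : ℝ :=
  ∑ σ : Fin n → Fin d × Bool, Real.exp (β * energy w σ)

open Classical in
/-- The sum over the paths of length `n` which stay in the ball of radius `R` (sup norm). -/
noncomputable def stay {d : ℕ} (β : ℝ) (w : ℕ → (Fin d → ℤ) → ℝ) (n : ℕ) (R : ℝ) : ℝ :=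
  ∑ σ : Fin n → Fin d × Bool, if ∀ i ≤ n, ‖walk σ i‖ ≤ R then Real.exp (β * energy w σ) else 0

/-- The probability `P_n^{β,ω} (max_{0 ≤ i ≤ n} ‖S_i‖ ≤ R)` (sup norm). -/
noncomputable def probStay {d : ℕ} (β : ℝ) (w : ℕ → (Fin d → ℤ) → ℝ) (n : ℕ) (R : ℝ) : ℝ :=
  stay β w n R / total β w n

variable {d : ℕ}

theorem norm_step (s : Fin d × Bool) : ‖step s‖ ≤ 1 := by
  rw [pi_norm_le_iff_of_nonneg zero_le_one]
  intro c
  rw [step]
  by_cases h : c = s.1
  · subst h
    rw [Pi.single_eq_same]
    split_ifs <;> simp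
  · rw [Pi.single_eq_of_ne h]; simp

theorem norm_walk_le {n : ℕ} (σ : Fin n → Fin d × Bool) (i : ℕ) : ‖walk σ i‖ ≤ n := by
  rw [walk]
  refine (norm_sum_le _ _).trans ?_
  calc ∑ j : Fin n, ‖(if (j : ℕ) < i then step (σ j) else 0)‖ ≤ ∑ j : Fin n, (1 : ℝ) := by
        apply sum_le_sum
        intro j _
        split_ifs
        · exact norm_step _
        · simp
    _ = n := by simp

theorem walk_zero {n : ℕ} (σ : Fin n → Fin d × Bool) : walk σ 0 = 0 := by simp [walk]

theorem walk_ge {n : ℕ} (σ : Fin n → Fin d × Bool) {i : ℕ} (hi : n ≤ i) : walk σ i = walk σ n := by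
  rw [walk, walk]
  apply sum_congr rfl
  intro j _
  rw [if_pos (by omega), if_pos j.2]

theorem walk_append {m k : ℕ} (u : Fin m → Fin d × Bool) (σ : Fin k → Fin d × Bool) (i : ℕ) :
    walk (Fin.append u σ) i = walk u i + walk σ (i - m) := by
  rw [walk, Fin.sum_univ_add, walk, walk]
  congr 1
  · apply sum_congr rfl
    intro j _
    simp
  · apply sum_congr rfl
    intro j _
    rw [Fin.append_right]
    congr 1
    simp only [Fin.val_natAdd, eq_iff_iff]
    omega

theorem energy_append {m k : ℕ} (w : ℕ → (Fin d → ℤ) → ℝ) (u : Fin m → Fin d × Bool) (σ : Fin k → Fin d × Bool) :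
    energy w (Fin.append u σ) = energy w u +
      ∑ i ∈ range k, w (m + (i + 1)) (walk u m + walk σ (i + 1)) := by
  rw [energy, sum_range_add, energy]
  congr 1
  · apply sum_congr rfl
    intro i hi
    rw [mem_range] at hi
    rw [walk_append, show i + 1 - m = 0 by omega, walk_zero, add_zero]
  · apply sum_congr rfl
    intro i _
    rw [walk_append, show m + i + 1 - m = i + 1 by omega, walk_ge u (by omega), add_assoc m i 1]

theorem stay_nonneg (β : ℝ) (w : ℕ → (Fin d → ℤ) → ℝ) (n : ℕ) (R : ℝ) : 0 ≤ stay β w n R := by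
  apply sum_nonneg
  intro σ _
  split_ifs
  · positivity
  · exact le_rfl

theorem stay_le_total (β : ℝ) (w : ℕ → (Fin d → ℤ) → ℝ) (n : ℕ) (R : ℝ) : stay β w n R ≤ total β w n := by
  apply sum_le_sum
  intro σ _
  split_ifs
  · exact le_rfl
  · positivity

/-- Restriction to the paths with a given first piece. -/
theorem total_ge {m k : ℕ} {β : ℝ} (hβ : 0 ≤ β) (w : ℕ → (Fin d → ℤ) → ℝ) (u : Fin m → Fin d × Bool) (R : ℝ) {Λ : ℝ}
    (hΛ : ∀ i, 1 ≤ i → i ≤ m → ∀ x, ‖x‖ ≤ m → |w i x| ≤ Λ) :
    Real.exp (-(β * (m * Λ))) * stay β (fun i x => w (m + i) (walk u m + x)) k R ≤ total β w (m + k) := by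
  classical
  have hE : -(m * Λ) ≤ energy w u := by
    rw [energy]
    calc -(m * Λ) = ∑ i ∈ range m, (-Λ) := by simp
      _ ≤ _ := by
        apply sum_le_sum
        intro i hi
        rw [mem_range] at hi
        exact (abs_le.1 (hΛ (i + 1) (by omega) (by omega) _ (norm_walk_le u _))).1
  calc Real.exp (-(β * (m * Λ))) * stay β (fun i x => w (m + i) (walk u m + x)) k R
      ≤ ∑ σ : Fin k → Fin d × Bool, Real.exp (β * energy w (Fin.append u σ)) := by
        rw [stay, mul_sum]
        apply sum_le_sum
        intro σ _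
        have h0 : Real.exp (-(β * (m * Λ))) * Real.exp (β * energy (fun i x => w (m + i) (walk u m + x)) σ) ≤
            Real.exp (β * energy w (Fin.append u σ)) := by
          rw [← Real.exp_add, energy_append]
          apply Real.exp_le_exp.2
          have : energy (fun i x => w (m + i) (walk u m + x)) σ =
            ∑ i ∈ range k, w (m + (i + 1)) (walk u m + walk σ (i + 1)) := rfl
          rw [this, mul_add]
          nlinarith [mul_le_mul_of_nonneg_left hE hβ]
        split_ifs
        · exact h0
        · rw [mul_zero]; positivity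
    _ ≤ total β w (m + k) := by
        rw [total]
        have hinj : Function.Injective (fun σ : Fin k → Fin d × Bool => Fin.append u σ) := by
          intro a b hab
          funext j
          have := congrFun hab (Fin.natAdd m j)
          simpa using this
        rw [← sum_image (s := univ) (g := fun σ : Fin k → Fin d × Bool => Fin.append u σ)
          (f := fun τ => Real.exp (β * energy w τ)) (fun a _ b _ h => hinj h)]
        apply sum_le_sum_of_subset_of_nonneg (subset_univ _)
        intro τ _ _
        positivity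

/-- Forgetting the last piece. -/
theorem stay_le {k m : ℕ} {β : ℝ} (hβ : 0 ≤ β) (w : ℕ → (Fin d → ℤ) → ℝ) (R : ℝ) {Λ : ℝ}
    (hΛ : ∀ i, 1 ≤ i → i ≤ k + m → ∀ x, ‖x‖ ≤ R → |w i x| ≤ Λ) :
    stay β w (k + m) R ≤ (2 * d) ^ m * Real.exp (β * (m * Λ)) * stay β w k R := by
  classical
  have h1 : stay β w (k + m) R = ∑ p : (Fin k → Fin d × Bool) × (Fin m → Fin d × Bool),
      if ∀ i ≤ k + m, ‖walk (Fin.append p.1 p.2) i‖ ≤ R then Real.exp (β * energy w (Fin.append p.1 p.2)) else 0 := by
    rw [stay]
    exact (Equiv.sum_comp (Fin.appendEquiv k m) _).symm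
  rw [h1, Fintype.sum_prod_type]
  calc ∑ σ : Fin k → Fin d × Bool, ∑ u : Fin m → Fin d × Bool,
      (if ∀ i ≤ k + m, ‖walk (Fin.append σ u) i‖ ≤ R then Real.exp (β * energy w (Fin.append σ u)) else 0)
      ≤ ∑ σ : Fin k → Fin d × Bool, ∑ u : Fin m → Fin d × Bool, Real.exp (β * (m * Λ)) *
        (if ∀ i ≤ k, ‖walk σ i‖ ≤ R then Real.exp (β * energy w σ) else 0) := by
        apply sum_le_sum
        intro σ _
        apply sum_le_sum
        intro u _
        by_cases h : ∀ i ≤ k + m, ‖walk (Fin.append σ u) i‖ ≤ R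
        · rw [if_pos h]
          have h2 : ∀ i ≤ k, ‖walk σ i‖ ≤ R := by
            intro i hi
            have := h i (by omega)
            rwa [walk_append, show i - k = 0 by omega, walk_zero, add_zero] at this
          rw [if_pos h2, ← Real.exp_add, energy_append]
          apply Real.exp_le_exp.2
          have h3 : ∑ i ∈ range m, w (k + (i + 1)) (walk σ k + walk u (i + 1)) ≤ m * Λ := by
            calc ∑ i ∈ range m, w (k + (i + 1)) (walk σ k + walk u (i + 1)) ≤ ∑ i ∈ range m, Λ := by
                  apply sum_le_sum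
                  intro i hi
                  rw [mem_range] at hi
                  have h4 := h (k + (i + 1)) (by omega)
                  rw [walk_append, show k + (i + 1) - k = i + 1 by omega, walk_ge σ (by omega)] at h4
                  exact (abs_le.1 (hΛ _ (by omega) (by omega) _ h4)).2
              _ = m * Λ := by simp
          rw [mul_add]
          nlinarith [mul_le_mul_of_nonneg_left h3 hβ]
        · rw [if_neg h]
          split_ifs
          · positivity
          · simp
    _ = (2 * d) ^ m * Real.exp (β * (m * Λ)) * stay β w k R := by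
        simp only [sum_const, card_univ, Fintype.card_fun, Fintype.card_prod, Fintype.card_fin, Fintype.card_bool, nsmul_eq_mul]
        rw [stay, mul_sum]
        apply sum_congr rfl
        intro σ _
        push_cast
        ring

end Pool.Agent.H964.NU
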