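import Mathlib

/-! Product measures with densities (the first two lemmas are taken from Pool.Agent.H972.WG.Wbw, by helper972 and
helper263) and the effect of small shifts on product measures. -/

set_option autoImplicit false

open MeasureTheory ProbabilityTheory Filter Topology
open scoped ENNReal

namespace Pool.Agent.H964.NU

/-- the integral of a product of functions of different coordinates -/
theorem lintegral_pi_prod_sf {ι : Type*} [Fintype ι] {Ω : ι → Type*}
    [∀ i, MeasurableSpace (Ω i)] (μ : ∀ i, Measure (Ω i)) [∀ i, SigmaFinite (μ i)]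
    (f : ∀ i, Ω i → ℝ≥0∞) (hf : ∀ i, Measurable (f i)) :
    ∫⁻ ω, ∏ i, f i (ω i) ∂(Measure.pi μ) = ∏ i, ∫⁻ x, f i x ∂(μ i) := by
  classical
  have hmt : ∀ t : Finset ι, Measurable (fun ω : ∀ i, Ω i => ∏ i ∈ t, f i (ω i)) := fun t =>
    Finset.measurable_fun_prod _ fun i _ => (hf i).comp (measurable_pi_apply i)
  have key : ∀ (t : Finset ι) (x : ∀ i, Ω i),
      (∫⋯∫⁻_t, (fun ω => ∏ i ∈ t, f i (ω i)) ∂μ) x = ∏ i ∈ t, ∫⁻ y, f i y ∂(μ i) := by
    intro t
    induction t using Finset.induction_on with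
    | empty => intro x; simp
    | insert i t hi ih =>
      intro x
      rw [lmarginal_insert _ (hmt _) hi]
      have h1 : ∀ y : Ω i, (∫⋯∫⁻_t, (fun ω => ∏ j ∈ insert i t, f j (ω j)) ∂μ)
          (Function.update x i y) = f i y * ∏ j ∈ t, ∫⁻ y, f j y ∂(μ j) := by
        intro y
        rw [← ih (Function.update x i y)]
        unfold lmarginal
        rw [← lintegral_const_mul]
        · refine lintegral_congr fun z => ?_
          simp only [Finset.prod_insert hi]
          congr 1
          simp [Function.updateFinset, hi]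
        · exact (hmt t).comp measurable_updateFinset
      simp_rw [h1]
      rw [lintegral_mul_const _ (hf i), Finset.prod_insert hi]
  by_cases hne : Nonempty (∀ i, Ω i)
  · obtain ⟨x⟩ := hne
    have h := key Finset.univ x
    rw [lmarginal_univ] at h
    exact h
  · have hE : ∃ i, IsEmpty (Ω i) := by
      by_contra hcon
      push Not at hcon
      apply hne
      exact ⟨fun i => (not_isEmpty_iff.1 (by simp)).some⟩
    obtain ⟨i, hi⟩ := hE
    have h1 : IsEmpty (∀ i, Ω i) := ⟨fun g => hi.false (g i)⟩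
    rw [Finset.prod_eq_zero (Finset.mem_univ i)]
    · simp [lintegral_of_isEmpty]
    · simp [lintegral_of_isEmpty]

/-- product measures with densities -/
theorem pi_withDensity_sf {ι : Type*} [Fintype ι] {Ω : ι → Type*}
    [∀ i, MeasurableSpace (Ω i)] (μ : ∀ i, Measure (Ω i)) [∀ i, SigmaFinite (μ i)]
    (f : ∀ i, Ω i → ℝ≥0∞) (hf : ∀ i, Measurable (f i))
    [∀ i, SigmaFinite ((μ i).withDensity (f i))] :
    Measure.pi (fun i => (μ i).withDensity (f i)) =
      (Measure.pi μ).withDensity (fun ω => ∏ i, f i (ω i)) := by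
  refine Measure.pi_eq fun s hs => ?_
  rw [withDensity_apply _ (MeasurableSet.univ_pi hs), Measure.restrict_pi_pi,
    lintegral_pi_prod_sf _ f hf]
  exact Finset.prod_congr rfl fun i _ => (withDensity_apply _ (hs i)).symm

theorem one_sub_sum_le {ι : Type*} (s : Finset ι) (I : ι → ℝ) (h0 : ∀ i, 0 ≤ I i) (h1 : ∀ i, I i ≤ 1) :
    1 - ∑ i ∈ s, (1 - I i) ≤ ∏ i ∈ s, I i := by
  classical
  induction s using Finset.induction_on with
  | empty => simp
  | insert i s hi ih =>
    rw [Finset.sum_insert hi, Finset.prod_insert hi]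
    have hp : ∏ j ∈ s, I j ≤ 1 := Finset.prod_le_one (fun j _ => h0 j) (fun j _ => h1 j)
    nlinarith [h0 i, h1 i, mul_le_mul_of_nonneg_left ih (h0 i), Finset.sum_nonneg (s := s) (f := fun j => 1 - I j)
      (fun j _ => by linarith [h1 j])]

/-- `μ` has the density `g ^ 2`, and the translates of `g` are `√C`-Lipschitz in `L²` (for a probability measure
this means that the Fisher information is finite). -/
structure SqrtDensity (μ : Measure ℝ) (g : ℝ → ℝ) (C : ℝ) : Prop where
  meas : Measurable g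
  nonneg : ∀ x, 0 ≤ g x
  dens : μ = volume.withDensity (fun x => ENNReal.ofReal (g x ^ 2))
  lip : ∀ δ : ℝ, ∫ x, (g (x - δ) - g x) ^ 2 ≤ C * δ ^ 2

variable {μ : Measure ℝ} [IsProbabilityMeasure μ] {g : ℝ → ℝ} {C : ℝ}

theorem SqrtDensity.int (h : SqrtDensity μ g C) : Integrable (fun x => g x ^ 2) ∧ ∫ x, g x ^ 2 = 1 := by
  have h1 : ∫⁻ x, ENNReal.ofReal (g x ^ 2) = 1 := by
    have := measure_univ (μ := μ)
    rw [h.dens, withDensity_apply _ MeasurableSet.univ, setLIntegral_univ] at this
    exact this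
  have hm : Measurable (fun x => g x ^ 2) := h.meas.pow_const 2
  have hi : Integrable (fun x => g x ^ 2) := by
    refine ⟨hm.aestronglyMeasurable, ?_⟩
    rw [hasFiniteIntegral_iff_ofReal (Eventually.of_forall (fun x => sq_nonneg _)), h1]
    exact ENNReal.one_lt_top
  refine ⟨hi, ?_⟩
  rw [integral_eq_lintegral_of_nonneg_ae (Eventually.of_forall (fun x => sq_nonneg _)) hm.aestronglyMeasurable, h1]
  simp

theorem SqrtDensity.overlap (h : SqrtDensity μ g C) (δ : ℝ) :
    Integrable (fun x => g x * g (x - δ)) ∧ 0 ≤ ∫ x, g x * g (x - δ) ∧ (∫ x, g x * g (x - δ)) ≤ 1 ∧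
      1 - ∫ x, g x * g (x - δ) ≤ C * δ ^ 2 / 2 := by
  obtain ⟨hi, h1⟩ := h.int
  have hi2 : Integrable (fun x => g (x - δ) ^ 2) := hi.comp_sub_right δ
  have h2 : ∫ x, g (x - δ) ^ 2 = 1 := by rw [integral_sub_right_eq_self (fun x => g x ^ 2) δ, h1]
  have hms : Measurable (fun x => g (x - δ)) := h.meas.comp (measurable_id.sub_const δ)
  have hp : Integrable (fun x => g x * g (x - δ)) := by
    refine Integrable.mono' (hi.add hi2) (h.meas.mul hms).aestronglyMeasurable (Eventually.of_forall fun x => ?_)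
    rw [Real.norm_eq_abs, abs_of_nonneg (mul_nonneg (h.nonneg _) (h.nonneg _))]
    simp only [Pi.add_apply]
    nlinarith [sq_nonneg (g x - g (x - δ)), sq_nonneg (g x), sq_nonneg (g (x - δ))]
  have hexp : ∫ x, (g (x - δ) - g x) ^ 2 = 2 - 2 * ∫ x, g x * g (x - δ) := by
    have : ∀ x, (g (x - δ) - g x) ^ 2 = (g (x - δ) ^ 2 + g x ^ 2) - 2 * (g x * g (x - δ)) := fun x => by ring
    simp_rw [this]
    have hi3 : Integrable (fun x => g (x - δ) ^ 2 + g x ^ 2) := hi2.add hi
    have hp2 : Integrable (fun x => 2 * (g x * g (x - δ))) := hp.const_mul 2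
    rw [integral_sub hi3 hp2, integral_add hi2 hi, integral_const_mul, h1, h2]
    norm_num
  refine ⟨hp, integral_nonneg (fun x => mul_nonneg (h.nonneg _) (h.nonneg _)), ?_, ?_⟩
  · have : 0 ≤ ∫ x, (g (x - δ) - g x) ^ 2 := integral_nonneg (fun x => sq_nonneg _)
    linarith
  · have := h.lip δ
    linarith

theorem shift_bound {ι : Type*} [Fintype ι] (h : SqrtDensity μ g C) {E : Set (ι → ℝ)} (hE : MeasurableSet E)
    (v : ι → ℝ) {l : ℝ} (hl : 0 < l) :
    (Measure.pi (fun _ : ι => μ)).real E ≤ (Measure.pi (fun _ : ι => μ)).real {x | (fun p => x p + v p) ∈ E} +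
      (C * ∑ p, v p ^ 2) / (2 * l) + 2 * l := by
  classical
  obtain ⟨hi, h1⟩ := h.int
  let G : (ι → ℝ) → ℝ := fun x => ∏ p, g (x p)
  have hGm : Measurable G := Finset.measurable_fun_prod _ (fun p _ => h.meas.comp (measurable_pi_apply p))
  have hG2 : ∀ x, G x ^ 2 = ∏ p, g (x p) ^ 2 := fun x => by simp only [G]; rw [Finset.prod_pow]
  have hsub : Measurable (fun x : ι → ℝ => x - v) := measurable_id.sub_const v
  have hiG : Integrable (fun x => G x ^ 2) := by
    simp_rw [hG2]
    exact Integrable.fintype_prod (f := fun _ x => g x ^ 2) (fun _ => hi)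
  have hG1 : ∫ x, G x ^ 2 = 1 := by
    simp_rw [hG2]
    rw [integral_fintype_prod_volume_eq_prod (fun _ x => g x ^ 2)]
    simp [h1]
  have hiGv : Integrable (fun x => G (x - v) ^ 2) := hiG.comp_sub_right v
  have hGv1 : ∫ x, G (x - v) ^ 2 = 1 := by rw [integral_sub_right_eq_self (fun x => G x ^ 2) v, hG1]
  have hGG : ∀ x : ι → ℝ, G x * G (x - v) = ∏ p, (g (x p) * g (x p - v p)) := fun x => by
    simp only [G, Pi.sub_apply]; rw [Finset.prod_mul_distrib]
  have hiGG : Integrable (fun x => G x * G (x - v)) := by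
    simp_rw [hGG]
    exact Integrable.fintype_prod (f := fun p x => g x * g (x - v p)) (fun p => (h.overlap (v p)).1)
  have hGG1 : 1 - C * (∑ p, v p ^ 2) / 2 ≤ ∫ x, G x * G (x - v) := by
    simp_rw [hGG]
    rw [integral_fintype_prod_volume_eq_prod (fun p x => g x * g (x - v p))]
    refine le_trans ?_ (one_sub_sum_le Finset.univ (fun p => ∫ x, g x * g (x - v p))
      (fun p => (h.overlap (v p)).2.1) (fun p => (h.overlap (v p)).2.2.1))
    have : ∑ p, (1 - ∫ x, g x * g (x - v p)) ≤ ∑ p, C * v p ^ 2 / 2 :=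
      Finset.sum_le_sum (fun p _ => (h.overlap (v p)).2.2.2)
    rw [← Finset.sum_div, ← Finset.mul_sum] at this
    linarith
  have hν : Measure.pi (fun _ : ι => μ) = (volume : Measure (ι → ℝ)).withDensity (fun x => ENNReal.ofReal (G x ^ 2)) := by
    have hs : SigmaFinite ((volume : Measure ℝ).withDensity (fun x => ENNReal.ofReal (g x ^ 2))) := by
      rw [← h.dens]; infer_instance
    have h3 := pi_withDensity_sf (fun _ : ι => (volume : Measure ℝ)) (fun _ x => ENNReal.ofReal (g x ^ 2))
      (fun _ => (h.meas.pow_const 2).ennreal_ofReal)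
    rw [h.dens, h3, ← volume_pi]
    congr 1
    funext x
    rw [hG2, ENNReal.ofReal_prod_of_nonneg (fun p _ => sq_nonneg _)]
  have hreal : ∀ A : Set (ι → ℝ), MeasurableSet A →
      (Measure.pi (fun _ : ι => μ)).real A = ∫ x, A.indicator (fun x => G x ^ 2) x := by
    intro A hA
    rw [hν, Measure.real, withDensity_apply _ hA, ← ofReal_integral_eq_lintegral_ofReal hiG.integrableOn
      (Eventually.of_forall (fun x => sq_nonneg _)), ENNReal.toReal_ofReal (integral_nonneg (fun x => sq_nonneg _)),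
      integral_indicator hA]
  have hAm : MeasurableSet {x : ι → ℝ | (fun p => x p + v p) ∈ E} := (measurable_id.add_const v) hE
  rw [hreal E hE, hreal _ hAm]
  have hshift : ∫ x, ({x : ι → ℝ | (fun p => x p + v p) ∈ E}).indicator (fun x => G x ^ 2) x =
      ∫ x, E.indicator (fun x => G (x - v) ^ 2) x := by
    rw [← integral_add_right_eq_self (fun x => E.indicator (fun x => G (x - v) ^ 2) x) v]
    congr 1
    funext x
    by_cases hx : x + v ∈ E
    · rw [Set.indicator_of_mem (show x ∈ {x : ι → ℝ | (fun p => x p + v p) ∈ E} from hx), Set.indicator_of_mem hx,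
        add_sub_cancel_right]
    · rw [Set.indicator_of_notMem (show x ∉ {x : ι → ℝ | (fun p => x p + v p) ∈ E} from hx),
        Set.indicator_of_notMem hx]
  rw [hshift]
  have hpt : ∀ x, E.indicator (fun x => G x ^ 2) x ≤ E.indicator (fun x => G (x - v) ^ 2) x +
      ((G x ^ 2 + G (x - v) ^ 2 - 2 * (G x * G (x - v))) / (2 * l) + l * (G x ^ 2 + G (x - v) ^ 2)) := by
    intro x
    have hsq : 0 ≤ (G x - G (x - v)) ^ 2 := sq_nonneg _
    have hR : 0 ≤ (G x ^ 2 + G (x - v) ^ 2 - 2 * (G x * G (x - v))) / (2 * l) + l * (G x ^ 2 + G (x - v) ^ 2) := by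
      have : 0 ≤ G x ^ 2 + G (x - v) ^ 2 - 2 * (G x * G (x - v)) := by nlinarith
      positivity
    by_cases hx : x ∈ E
    · rw [Set.indicator_of_mem hx, Set.indicator_of_mem hx]
      have key : G x ^ 2 - G (x - v) ^ 2 ≤
          (G x ^ 2 + G (x - v) ^ 2 - 2 * (G x * G (x - v))) / (2 * l) + l * (G x ^ 2 + G (x - v) ^ 2) := by
        obtain ⟨A, hA⟩ : ∃ A, A = G x := ⟨_, rfl⟩
        obtain ⟨B, hB⟩ : ∃ B, B = G (x - v) := ⟨_, rfl⟩
        rw [← hA, ← hB]
        have e : (A ^ 2 + B ^ 2 - 2 * (A * B)) / (2 * l) + l * (A ^ 2 + B ^ 2) - (A ^ 2 - B ^ 2) =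
            ((A - B) - l * (A + B)) ^ 2 / (2 * l) + l * (A - B) ^ 2 / 2 := by
          field_simp
          ring
        have e2 : 0 ≤ ((A - B) - l * (A + B)) ^ 2 / (2 * l) + l * (A - B) ^ 2 / 2 := by positivity
        linarith
      linarith
    · rw [Set.indicator_of_notMem hx, Set.indicator_of_notMem hx]
      linarith
  have hiS : Integrable (fun x => G x ^ 2 + G (x - v) ^ 2) := hiG.add hiGv
  have hiT : Integrable (fun x => (G x ^ 2 + G (x - v) ^ 2 - 2 * (G x * G (x - v))) / (2 * l) +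
      l * (G x ^ 2 + G (x - v) ^ 2)) := by
    exact ((hiS.sub (hiGG.const_mul 2)).div_const _).add (hiS.const_mul l)
  have hiE : Integrable (E.indicator (fun x => G (x - v) ^ 2)) := hiGv.indicator hE
  have hiQ : Integrable (fun x => 2 * (G x * G (x - v))) := hiGG.const_mul 2
  have hiU : Integrable (fun x => G x ^ 2 + G (x - v) ^ 2 - 2 * (G x * G (x - v))) := hiS.sub hiQ
  have hiV : Integrable (fun x => (G x ^ 2 + G (x - v) ^ 2 - 2 * (G x * G (x - v))) / (2 * l)) := hiU.div_const _
  have hiW : Integrable (fun x => l * (G x ^ 2 + G (x - v) ^ 2)) := hiS.const_mul l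
  calc ∫ x, E.indicator (fun x => G x ^ 2) x ≤ ∫ x, (E.indicator (fun x => G (x - v) ^ 2) x +
      ((G x ^ 2 + G (x - v) ^ 2 - 2 * (G x * G (x - v))) / (2 * l) + l * (G x ^ 2 + G (x - v) ^ 2))) := by
        apply integral_mono (hiG.indicator hE) (hiE.add hiT) hpt
    _ = (∫ x, E.indicator (fun x => G (x - v) ^ 2) x) + ((2 - 2 * ∫ x, G x * G (x - v)) / (2 * l) + l * 2) := by
        rw [integral_add hiE hiT, integral_add hiV hiW,
          integral_div, integral_const_mul, integral_sub hiS hiQ, integral_const_mul,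
          integral_add hiG hiGv, hG1, hGv1]
        norm_num
    _ ≤ _ := by
        have : (2 - 2 * ∫ x, G x * G (x - v)) / (2 * l) ≤ (C * ∑ p, v p ^ 2) / (2 * l) := by
          gcongr
          linarith
        linarith

end Pool.Agent.H964.NU
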