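import Pool.Agent.H964.NU.Paths

/-! Tubes. -/

set_option autoImplicit false

open Finset

namespace Pool.Agent.H964.NU

variable {d : ℕ}

/-- Lattice points with all coordinates at most `B` in absolute value. -/
noncomputable def box (d B : ℕ) : Finset (Fin d → ℤ) := Fintype.piFinset (fun _ => Icc (-(B : ℤ)) B)

/-- The sites of a tube. -/
noncomputable def sites (d k B : ℕ) : Finset (ℕ × (Fin d → ℤ)) := Icc 1 k ×ˢ box d B

theorem card_sites (k B : ℕ) : (sites d k B).card = k * (2 * B + 1) ^ d := by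
  rw [sites, card_product, box, Fintype.card_piFinset]
  simp only [Nat.card_Icc, Int.card_Icc, prod_const, card_univ, Fintype.card_fin]
  congr 2
  omega

theorem mem_box {R : ℝ} (hR : 0 ≤ R) (x : Fin d → ℤ) : x ∈ box d ⌊R⌋₊ ↔ ‖x‖ ≤ R := by
  rw [box, Fintype.mem_piFinset, pi_norm_le_iff_of_nonneg hR]
  apply forall_congr'
  intro c
  rw [mem_Icc, Int.norm_eq_abs, ← abs_le]
  rw [← Int.natCast_natAbs, Int.ofNat_le, Nat.le_floor_iff hR]
  rw [Nat.cast_natAbs, Int.cast_abs]

theorem mem_sites {R : ℝ} (hR : 0 ≤ R) (k i : ℕ) (x : Fin d → ℤ) :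
    (i, x) ∈ sites d k ⌊R⌋₊ ↔ (1 ≤ i ∧ i ≤ k) ∧ ‖x‖ ≤ R := by
  rw [sites, mem_product, mem_Icc, mem_box hR]

/-- A change of the environment by a constant on the tube. -/
theorem stay_shift {β : ℝ} {w w' : ℕ → (Fin d → ℤ) → ℝ} {k : ℕ} {R c : ℝ}
    (h : ∀ i x, 1 ≤ i → i ≤ k → ‖x‖ ≤ R → w' i x = w i x + c) :
    stay β w' k R = Real.exp (β * (k * c)) * stay β w k R := by
  classical
  rw [stay, stay, mul_sum]
  apply sum_congr rfl
  intro σ _
  by_cases hs : ∀ i ≤ k, ‖walk σ i‖ ≤ R
  · rw [if_pos hs, if_pos hs, ← Real.exp_add]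
    congr 1
    have : energy w' σ = energy w σ + k * c := by
      rw [energy, energy]
      have : ∀ i ∈ range k, w' (i + 1) (walk σ (i + 1)) = w (i + 1) (walk σ (i + 1)) + c := by
        intro i hi
        rw [mem_range] at hi
        exact h _ _ (by omega) (by omega) (hs _ (by omega))
      rw [sum_congr rfl this, sum_add_distrib]
      simp
    rw [this]
    ring
  · rw [if_neg hs, if_neg hs, mul_zero]

theorem alt_sum (n : ℕ) : (∑ j ∈ range n, (if j % 2 = 0 then (1 : ℤ) else -1)) = 0 ∨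
    (∑ j ∈ range n, (if j % 2 = 0 then (1 : ℤ) else -1)) = 1 := by
  have : (∑ j ∈ range n, (if j % 2 = 0 then (1 : ℤ) else -1)) = if n % 2 = 0 then 0 else 1 := by
    induction n with
    | zero => simp
    | succ n ih =>
      rw [sum_range_succ, ih]
      by_cases h : n % 2 = 0
      · have : (n + 1) % 2 ≠ 0 := by omega
        simp [h, this]
      · have : (n + 1) % 2 = 0 := by omega
        simp [h, this]
  rw [this]
  split_ifs <;> simp

theorem walk_line {n : ℕ} (c : Fin d) (b : ℕ → Bool) {i : ℕ} (hi : i ≤ n) :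
    walk (fun j : Fin n => (c, b j)) i = Pi.single c (∑ j ∈ range i, (if b j then (1 : ℤ) else -1)) := by
  rw [walk, Fin.sum_univ_eq_sum_range (fun j => if j < i then step (c, b j) else 0) n,
    ← sum_filter]
  have h1 : (range n).filter (fun j => j < i) = range i := by
    ext j
    simp only [mem_filter, mem_range]
    omega
  rw [h1]
  induction i with
  | zero => simp
  | succ i ih =>
    have h2 : (range n).filter (fun j => j < i) = range i := by
      ext j
      simp only [mem_filter, mem_range]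
      omega
    rw [sum_range_succ, ih (by omega) h2, sum_range_succ, Pi.single_add]
    rfl

theorem stay_pos (hd : 1 ≤ d) (β : ℝ) (w : ℕ → (Fin d → ℤ) → ℝ) (k : ℕ) {R : ℝ} (hR : 1 ≤ R) :
    0 < stay β w k R := by
  classical
  rw [stay]
  apply sum_pos' (fun σ _ => by split_ifs <;> positivity)
  refine ⟨fun j : Fin k => (⟨0, hd⟩, decide ((j : ℕ) % 2 = 0)), mem_univ _, ?_⟩
  rw [if_pos]
  · positivity
  · intro i hi
    rw [walk_line (⟨0, hd⟩ : Fin d) (fun j => decide (j % 2 = 0)) hi]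
    refine le_trans ?_ hR
    rw [pi_norm_le_iff_of_nonneg zero_le_one]
    intro c
    by_cases hc : c = ⟨0, hd⟩
    · subst hc
      rw [Pi.single_eq_same]
      simp only [decide_eq_true_eq]
      rcases alt_sum i with h | h <;> rw [h] <;> simp
    · rw [Pi.single_eq_of_ne hc]; simp

theorem total_pos (hd : 1 ≤ d) (β : ℝ) (w : ℕ → (Fin d → ℤ) → ℝ) (n : ℕ) : 0 < total β w n :=
  (stay_pos hd β w n le_rfl).trans_le (stay_le_total β w n 1)

/-- A path of length `2 M K` from `0` to `2 M j e_1`, `j ≤ K`. -/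
theorem exists_prefix (hd : 1 ≤ d) (M K j : ℕ) (hj : j ≤ K) :
    ∃ u : Fin (2 * M * K) → Fin d × Bool, walk u (2 * M * K) = Pi.single ⟨0, hd⟩ ((2 * M * j : ℕ) : ℤ) := by
  refine ⟨fun i => (⟨0, hd⟩, decide ((i : ℕ) < M * (K + j))), ?_⟩
  rw [walk_line (⟨0, hd⟩ : Fin d) (fun i => decide (i < M * (K + j))) le_rfl]
  congr 1
  obtain ⟨r, hr⟩ : ∃ r, K = j + r := ⟨K - j, by omega⟩
  have h1 : 2 * M * K = M * (K + j) + M * r := by subst hr; ring
  rw [h1, sum_range_add]
  have h2 : ∀ x ∈ range (M * (K + j)), (if decide (x < M * (K + j)) then (1 : ℤ) else -1) = 1 := by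
    intro x hx
    rw [mem_range] at hx
    simp [hx]
  have h3 : ∀ x ∈ range (M * r), (if decide (M * (K + j) + x < M * (K + j)) then (1 : ℤ) else -1) = -1 := by
    intro x hx
    have : ¬ (M * (K + j) + x < M * (K + j)) := by omega
    simp [this]
  rw [sum_congr rfl h2, sum_congr rfl h3]
  simp only [sum_const, card_range, nsmul_eq_mul]
  subst hr
  push_cast
  ring

/-- The comparison of the polymer measure of a tube with the weight of a shifted tube. -/
theorem probStay_le (hd : 1 ≤ d) {β : ℝ} (hβ : 0 ≤ β) (w : ℕ → (Fin d → ℤ) → ℝ) {m k : ℕ} {R Λ : ℝ} (hR : 1 ≤ R)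
    (hRn : R ≤ ((m + k : ℕ) : ℝ)) (u : Fin m → Fin d × Bool)
    (hΛ : ∀ i, 1 ≤ i → i ≤ m + k → ∀ x : Fin d → ℤ, ‖x‖ ≤ ((m + k : ℕ) : ℝ) → |w i x| ≤ Λ) :
    probStay β w (m + k) R ≤ Real.exp (m * Real.log (2 * d) + 2 * β * (m * Λ) + Real.log (stay β w k R) -
      Real.log (stay β (fun i x => w (m + i) (walk u m + x)) k R)) := by
  have h1 : stay β w (m + k) R ≤ (2 * d) ^ m * Real.exp (β * (m * Λ)) * stay β w k R := by
    have := stay_le (k := k) (m := m) hβ w R (Λ := Λ) (fun i hi hi' x hx => hΛ i hi (by omega) x (hx.trans hRn))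
    rwa [add_comm k m] at this
  have h2 := total_ge (k := k) hβ w u R (Λ := Λ) (fun i hi hi' x hx => hΛ i hi (by omega) x
    (hx.trans (by push_cast; have : (0 : ℝ) ≤ k := by positivity
                  linarith)))
  have p1 := stay_pos hd β w k hR
  have p2 := stay_pos hd β (fun i x => w (m + i) (walk u m + x)) k hR
  have hd' : (0 : ℝ) < 2 * d := by
    have : (1 : ℝ) ≤ d := by exact_mod_cast hd
    linarith
  rw [probStay, div_le_iff₀ (total_pos hd β w _)]
  refine h1.trans ?_
  refine le_trans (le_of_eq ?_) (mul_le_mul_of_nonneg_left h2 (by positivity))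
  have e1 : Real.exp (2 * β * (m * Λ)) * Real.exp (-(β * (m * Λ))) = Real.exp (β * (m * Λ)) := by
    rw [← Real.exp_add]; congr 1; ring
  have e2 : Real.exp (m * Real.log (2 * d)) = (2 * d) ^ m := by
    rw [mul_comm, Real.exp_mul, Real.exp_log hd', Real.rpow_natCast]
  rw [Real.exp_sub, Real.exp_add, Real.exp_add, Real.exp_log p1, Real.exp_log p2, e2, ← e1]
  field_simp

end Pool.Agent.H964.NU
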